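import Pool.Agent.Helper40.XA.Poly

set_option autoImplicit false

/-! Cliques with four vertices. -/

namespace Pool.Agent.Helper40.XA

open Finset
open Pool.Agent.Helper65.XR (Pt RI Row D4 ee Mot XI e5 Qf Lf GPos Good oth)

theorem exists_alpha {n : ℕ} (t : Fin 5 → Fin n) (htinj : Function.Injective t)
    (p : Fin n → Pt) (hgp : GPos p) :
    ∃ α : Fin 5 → ℝ, (∀ i, α i ≠ 0) ∧ ∑ i, α i = 0 ∧ ∑ i, α i • p (t i) = 0 ∧
      ∀ β : Fin 5 → ℝ, ∑ i, β i = 0 → ∑ i, β i • p (t i) = 0 → ∃ c : ℝ, β = c • α := by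
  classical
  have hc := Pool.Agent.Helper65.XR.coo
  set j0 : Fin 5 := 4 with hj0
  have hA : ∀ k, oth t j0 k ≠ t j0 := by
    intro k h
    exact Fin.succAbove_ne j0 k (htinj h)
  have hAinj : Function.Injective (oth t j0) := by
    intro k k' h
    exact Fin.succAbove_right_injective (htinj h)
  obtain ⟨xx, hb1, hb2⟩ := (hc n p (oth t j0) hAinj hgp).1 (p (t j0))
  have hxk : ∀ k, xx k ≠ 0 := ((hc n p (oth t j0) hAinj hgp).2.1 (t j0) xx hA ⟨hb1, hb2⟩).1
  let α : Fin 5 → ℝ := Fin.insertNth (α := fun _ => ℝ) j0 (-1) xx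
  have hα0 : α j0 = -1 := by simp [α]
  have hαk : ∀ k, α (j0.succAbove k) = xx k := by intro k; simp [α]
  have hαs : ∑ i, α i = 0 := by
    rw [Fin.sum_univ_succAbove α j0, hα0]
    simp only [hαk]
    rw [hb1]; ring
  have hαp : ∑ i, α i • p (t i) = 0 := by
    rw [Fin.sum_univ_succAbove (fun i => α i • p (t i)) j0, hα0]
    simp only [hαk]
    have : ∑ k : Fin 4, xx k • p (t (j0.succAbove k)) = p (t j0) := hb2
    rw [this, neg_smul, one_smul, neg_add_cancel]
  have hαne : ∀ i, α i ≠ 0 := by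
    intro i
    rcases Fin.eq_self_or_eq_succAbove j0 i with h | ⟨k, h⟩
    · rw [h, hα0]; norm_num
    · rw [h, hαk]; exact hxk k
  refine ⟨α, hαne, hαs, hαp, ?_⟩
  intro β hβs hβp
  have hy : (fun k => β (j0.succAbove k) + β j0 * xx k) = (0 : Fin 4 → ℝ) := by
    apply aff_indep p (oth t j0) (hgp (oth t j0) hAinj)
    · rw [Finset.sum_add_distrib, ← Finset.mul_sum, hb1]
      rw [Fin.sum_univ_succAbove β j0] at hβs
      linarith
    · rw [Fin.sum_univ_succAbove _ j0] at hβp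
      simp only [add_smul]
      rw [Finset.sum_add_distrib]
      have h2 : ∑ k, (β j0 * xx k) • p (oth t j0 k) = β j0 • p (t j0) := by
        rw [← hb2, Finset.smul_sum]
        exact Finset.sum_congr rfl fun k _ => by rw [mul_smul]
      rw [h2, add_comm]
      exact hβp
  refine ⟨- β j0, ?_⟩
  funext i
  rcases Fin.eq_self_or_eq_succAbove j0 i with h | ⟨k, h⟩
  · rw [h, Pi.smul_apply, hα0, smul_eq_mul]; ring
  · rw [h, Pi.smul_apply, hαk, smul_eq_mul]
    have := congrFun hy k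
    simp only [Pi.zero_apply] at this
    linarith

/-- A coplanar clique with four vertices is dependent. -/
theorem clq_bad {n : ℕ} (G : SimpleGraph (Fin n)) (T : Fin 4 → Fin n)
    (hT : Function.Injective T) (hc : ∀ i j, i ≠ j → G.Adj (T i) (T j)) (p : Fin n → Pt)
    (h0 : D4 p T = 0) : ¬ RI G p := by
  classical
  intro hRI
  obtain ⟨γ, hγ, hγs, hγp⟩ := aff_dep p T h0
  obtain ⟨i, hi⟩ := Function.ne_iff.1 hγ
  have hi' : γ i ≠ 0 := hi
  obtain ⟨j, hji, hj⟩ : ∃ j, j ≠ i ∧ γ j ≠ 0 := by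
    by_contra hcon
    push Not at hcon
    apply hi'
    rw [← hγs]
    exact (Finset.sum_eq_single i (fun k _ hk => hcon k hk)
      (fun h => absurd (mem_univ i) h)).symm
  obtain ⟨u, hu1, hu0⟩ := Pool.Agent.Helper65.XR.badm_dual Pool.Agent.Helper65.XR.row_pair
    Pool.Agent.Helper65.XR.dual G p hRI (T i) (T j) (hc i j hji.symm)
  have hQ := Pool.Agent.Helper65.XR.badm_Qf p u (Fin.snoc (α := fun _ => Fin n) T (T 0))
    (Fin.snoc (α := fun _ => ℝ) γ 0) (by
      rw [Fin.sum_univ_castSucc]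
      simp only [Fin.snoc_castSucc, Fin.snoc_last]
      rw [hγs, add_zero]) (by
      rw [Fin.sum_univ_castSucc]
      simp only [Fin.snoc_castSucc, Fin.snoc_last]
      rw [hγp, zero_smul, add_zero])
  unfold Qf e5 at hQ
  rw [Fin.sum_univ_castSucc] at hQ
  simp only [Fin.sum_univ_castSucc (n := 4), Fin.snoc_castSucc, Fin.snoc_last, mul_zero,
    add_zero, zero_mul, Finset.sum_const_zero] at hQ
  have hterm : ∀ k l : Fin 4, ee p u (T k) (T l) * γ k * γ l
      = (if k = i then (if l = j then γ i * γ j else 0) else 0)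
        + (if k = j then (if l = i then γ i * γ j else 0) else 0) := by
    intro k l
    by_cases hk : k = i
    · subst hk
      rw [if_pos rfl, if_neg hji.symm]
      by_cases hl : l = j
      · subst hl
        rw [if_pos rfl, hu1]
        ring
      · rw [if_neg hl]
        by_cases hlk : l = k
        · subst hlk
          rw [Pool.Agent.Helper65.XR.badm_ee_self]
          ring
        · rw [hu0 _ _ (hc k l (Ne.symm hlk))]
          · ring
          · intro h
            rw [Sym2.eq_iff] at h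
            rcases h with ⟨_, h2⟩ | ⟨h1, _⟩
            · exact hl (hT h2)
            · exact hji (hT h1).symm
    · rw [if_neg hk]
      by_cases hkj : k = j
      · subst hkj
        rw [if_pos rfl]
        by_cases hl : l = i
        · subst hl
          rw [if_pos rfl, Pool.Agent.Helper65.XR.badm_ee_symm, hu1]
          ring
        · rw [if_neg hl]
          by_cases hlk : l = k
          · subst hlk
            rw [Pool.Agent.Helper65.XR.badm_ee_self]
            ring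
          · rw [hu0 _ _ (hc k l (Ne.symm hlk))]
            · ring
            · intro h
              rw [Sym2.eq_iff] at h
              rcases h with ⟨h1, _⟩ | ⟨_, h2⟩
              · exact hk (hT h1)
              · exact hl (hT h2)
      · rw [if_neg hkj]
        by_cases hlk : l = k
        · subst hlk
          rw [Pool.Agent.Helper65.XR.badm_ee_self]
          ring
        · rw [hu0 _ _ (hc k l (Ne.symm hlk))]
          · ring
          · intro h
            rw [Sym2.eq_iff] at h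
            rcases h with ⟨h1, _⟩ | ⟨h1, _⟩
            · exact hk (hT h1)
            · exact hkj (hT h1)
  simp only [hterm, Finset.sum_add_distrib] at hQ
  simp only [Finset.sum_ite_eq', Finset.mem_univ, if_true, Finset.sum_ite_irrel,
    Finset.sum_const_zero] at hQ
  have : γ i * γ j = 0 := by linarith
  rcases mul_eq_zero.1 this with h | h
  · exact hi' h
  · exact hj h

/-- the algebra for cliques -/
theorem clq_alg (ε δ : Fin 5 → Fin 5 → ℝ) (α : Fin 5 → ℝ) (hα : ∀ i, α i ≠ 0)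
    (us : ∀ i j, ε i j = ε j i) (ui : ∀ i, ε i i = 0)
    (vs : ∀ i j, δ i j = δ j i) (vi : ∀ i, δ i i = 0)
    (u01 : ε 0 1 = 1) (u02 : ε 0 2 = 0) (u03 : ε 0 3 = 0) (u12 : ε 1 2 = 0) (u13 : ε 1 3 = 0)
    (u23 : ε 2 3 = 0) (v01 : δ 0 1 = 0) (v02 : δ 0 2 = 0) (v03 : δ 0 3 = 0) (v12 : δ 1 2 = 0)
    (v13 : δ 1 3 = 0) (v23 : δ 2 3 = 1) (hQ : Qf ε α = 0)
    (hid : ∀ μ : Fin 5 → ℝ, ∑ i, μ i ≠ 0 → Qf ε μ * Lf δ α μ = Qf δ μ * Lf ε α μ) : False := by
  have hid' : ∀ a b c d : ℝ, a + b + c + d ≠ 0 →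
      a * b * (α 2 * d + α 3 * c + α 4 * (δ 0 4 * a + δ 1 4 * b + δ 2 4 * c + δ 3 4 * d))
      = c * d * (α 0 * b + α 1 * a + α 4 * (ε 0 4 * a + ε 1 4 * b + ε 2 4 * c + ε 3 4 * d)) := by
    intro a b c d h
    have h1 := hid ![a, b, c, d, 0] (by
      rw [Fin.sum_univ_five]
      simpa using h)
    unfold Qf Lf at h1
    simp only [Fin.sum_univ_five, us 1 0, us 2 0, us 3 0, us 4 0, us 2 1, us 3 1, us 4 1,
      us 3 2, us 4 2, us 4 3, vs 1 0, vs 2 0, vs 3 0, vs 4 0, vs 2 1, vs 3 1, vs 4 1, vs 3 2,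
      vs 4 2, vs 4 3, ui, vi, u01, u02, u03, u12, u13, u23, v01, v02, v03, v12, v13, v23,
      Matrix.cons_val_zero, Matrix.cons_val_one, Matrix.cons_val_two,
      Matrix.head_cons, Matrix.tail_cons, Matrix.cons_val] at h1
    linear_combination (1 / 2) * h1
  have i1 := hid' 0 0 1 1 (by norm_num)
  have i2 := hid' 0 0 1 2 (by norm_num)
  have i3 := hid' 0 1 1 1 (by norm_num)
  have i4 := hid' 1 0 1 1 (by norm_num)
  unfold Qf at hQ
  simp only [Fin.sum_univ_five, us 1 0, us 2 0, us 3 0, us 4 0, us 2 1, us 3 1, us 4 1, us 3 2,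
    us 4 2, us 4 3, ui, u01, u02, u03, u12, u13, u23] at hQ
  have hα0 := hα 0
  have hα1 := hα 1
  have e2 : α 4 * ε 2 4 = 0 := by linarith
  have e3 : α 4 * ε 3 4 = 0 := by linarith
  have e1 : α 4 * ε 1 4 = -α 0 := by linarith
  have e0 : α 4 * ε 0 4 = -α 1 := by linarith
  have : α 0 * α 1 = 0 := by
    linear_combination (-1 / 2) * hQ + (α 0) * e0 + (α 1) * e1 + (α 2) * e2 + (α 3) * e3
  rcases mul_eq_zero.1 this with h | h
  · exact hα0 h
  · exact hα1 h

/-- The X-replacement on two edges of a clique with four vertices is independent. -/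
theorem clq_XI {n : ℕ} (G H : SimpleGraph (Fin n)) (hHG : H ≤ G) (t : Fin 5 → Fin n)
    (ht : Function.Injective t)
    (hc : ∀ i j : Fin 5, i ≠ 4 → j ≠ 4 → i ≠ j → G.Adj (t i) (t j))
    (n01 : ¬ H.Adj (t 0) (t 1)) (n23 : ¬ H.Adj (t 2) (t 3)) (hG : ∃ p, RI G p) : XI H t := by
  classical
  by_contra hX
  have hr := Pool.Agent.Helper65.XR.row_pair
  have hd := Pool.Agent.Helper65.XR.dual
  obtain ⟨R, hR, hRg⟩ := Pool.Agent.Helper65.XR.gen n G hG
  obtain ⟨p, hp⟩ := Pool.Agent.Helper65.XR.exists_ne R hR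
  obtain ⟨hRI, hgp, -⟩ := hRg p hp
  obtain ⟨α, hα, hαs, hαp, hαu⟩ := exists_alpha t ht p hgp
  have h01 : G.Adj (t 0) (t 1) := hc 0 1 (by decide) (by decide) (by decide)
  have h23 : G.Adj (t 2) (t 3) := hc 2 3 (by decide) (by decide) (by decide)
  obtain ⟨u, hu1, hu0⟩ := Pool.Agent.Helper65.XR.badm_dual hr hd G p hRI (t 0) (t 1) h01
  obtain ⟨v, hv1, hv0⟩ := Pool.Agent.Helper65.XR.badm_dual hr hd G p hRI (t 2) (t 3) h23
  have hmu : Mot H p u := Pool.Agent.Helper65.XR.badm_mot G H hHG p u _ _ n01 hu0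
  have hmv : Mot H p v := Pool.Agent.Helper65.XR.badm_mot G H hHG p v _ _ n23 hv0
  have hid := Pool.Agent.Helper65.XR.idt (Pool.Agent.Helper65.XR.ex hr) n H t ht hX p
    (Pool.Agent.Helper65.XR.badm_RI_mono G H hHG p hRI) α hαs hαp hαu u v hmu hmv
  have hQ := Pool.Agent.Helper65.XR.badm_Qf p u t α hαs hαp
  have us : ∀ i j, e5 p u t i j = e5 p u t j i := fun i j =>
    Pool.Agent.Helper65.XR.badm_ee_symm _ _ _ _
  have vs : ∀ i j, e5 p v t i j = e5 p v t j i := fun i j =>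
    Pool.Agent.Helper65.XR.badm_ee_symm _ _ _ _
  have ui : ∀ i, e5 p u t i i = 0 := fun i => Pool.Agent.Helper65.XR.badm_ee_self _ _ _
  have vi : ∀ i, e5 p v t i i = 0 := fun i => Pool.Agent.Helper65.XR.badm_ee_self _ _ _
  have hs : ∀ i j k l : Fin 5, ¬ ((i = k ∧ j = l) ∨ (i = l ∧ j = k)) →
      ¬ (s(t i, t j) = s(t k, t l)) := by
    intro i j k l h hh
    rw [Sym2.eq_iff] at hh
    rcases hh with ⟨h1, h2⟩ | ⟨h1, h2⟩
    · exact h (Or.inl ⟨ht h1, ht h2⟩)
    · exact h (Or.inr ⟨ht h1, ht h2⟩)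
  have u01 : e5 p u t 0 1 = 1 := hu1
  have u02 : e5 p u t 0 2 = 0 := hu0 _ _ (hc 0 2 (by decide) (by decide) (by decide))
    (hs _ _ _ _ (by decide))
  have u03 : e5 p u t 0 3 = 0 := hu0 _ _ (hc 0 3 (by decide) (by decide) (by decide))
    (hs _ _ _ _ (by decide))
  have u12 : e5 p u t 1 2 = 0 := hu0 _ _ (hc 1 2 (by decide) (by decide) (by decide))
    (hs _ _ _ _ (by decide))
  have u13 : e5 p u t 1 3 = 0 := hu0 _ _ (hc 1 3 (by decide) (by decide) (by decide))
    (hs _ _ _ _ (by decide))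
  have u23 : e5 p u t 2 3 = 0 := hu0 _ _ (hc 2 3 (by decide) (by decide) (by decide))
    (hs _ _ _ _ (by decide))
  have v23 : e5 p v t 2 3 = 1 := hv1
  have v02 : e5 p v t 0 2 = 0 := hv0 _ _ (hc 0 2 (by decide) (by decide) (by decide))
    (hs _ _ _ _ (by decide))
  have v03 : e5 p v t 0 3 = 0 := hv0 _ _ (hc 0 3 (by decide) (by decide) (by decide))
    (hs _ _ _ _ (by decide))
  have v12 : e5 p v t 1 2 = 0 := hv0 _ _ (hc 1 2 (by decide) (by decide) (by decide))
    (hs _ _ _ _ (by decide))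
  have v13 : e5 p v t 1 3 = 0 := hv0 _ _ (hc 1 3 (by decide) (by decide) (by decide))
    (hs _ _ _ _ (by decide))
  have v01 : e5 p v t 0 1 = 0 := hv0 _ _ (hc 0 1 (by decide) (by decide) (by decide))
    (hs _ _ _ _ (by decide))
  exact clq_alg (e5 p u t) (e5 p v t) α hα us ui vs vi u01 u02 u03 u12 u13 u23 v01 v02 v03 v12
    v13 v23 hQ hid

end Pool.Agent.Helper40.XA
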