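import Pool.Agent.Helper40.XA.Poly

set_option autoImplicit false

/-! Counting dependent placements on a line through one vertex. -/

namespace Pool.Agent.Helper40.XA

open Finset
open Pool.Agent.Helper65.XR (Pt RI Row D4 ee Mot XI e5 Qf Lf GPos Good)
open Pool.Agent.Helper65.XR.GEN (Ix)

/-- orientation of the projections of three points -/
def det2 {n : ℕ} (p : Fin n → Pt) (i j k : Fin n) : ℝ :=
  (p j 0 - p i 0) * (p k 1 - p i 1) - (p j 1 - p i 1) * (p k 0 - p i 0)

/-- moving one vertex vertically -/
def dd {n : ℕ} (v : Fin n) : Fin n → Pt := fun k c => if k = v ∧ c = 2 then 1 else 0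

theorem row_lin {n : ℕ} (p d : Fin n → Pt) (t : ℝ) (i j : Fin n) :
    Row (p + t • d) i j = Row p i j + t • Row d i j := by
  funext k c
  unfold Row
  simp only [Pi.add_apply, Pi.smul_apply, smul_eq_mul]
  split_ifs
  · simp only [Pi.sub_apply, Pi.add_apply, Pi.smul_apply, smul_eq_mul]
    ring
  · simp only [Pi.sub_apply, Pi.add_apply, Pi.smul_apply, smul_eq_mul]
    ring
  · simp

theorem row_dd {n : ℕ} (v i j : Fin n) (hi : i ≠ v) (hj : j ≠ v) : Row (dd v) i j = 0 := by
  funext k c
  unfold Row dd
  have h1 : (fun c : Fin 3 => if i = v ∧ c = 2 then (1 : ℝ) else 0) = 0 := by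
    funext c
    rw [if_neg fun h => hi h.1]
    rfl
  have h2 : (fun c : Fin 3 => if j = v ∧ c = 2 then (1 : ℝ) else 0) = 0 := by
    funext c
    rw [if_neg fun h => hj h.1]
    rfl
  simp only [h1, h2, sub_self, ite_self]
  rfl

/-- edges at `v` -/
abbrev Ev {n : ℕ} (G : SimpleGraph (Fin n)) (v : Fin n) : Type :=
  {x : Ix G // x.1.1 = v ∨ x.1.2 = v}

/-- the other end -/
def oe {n : ℕ} (G : SimpleGraph (Fin n)) (v : Fin n) (x : Ev G v) : Fin n :=
  if x.1.1.1 = v then x.1.1.2 else x.1.1.1

theorem oe_adj {n : ℕ} (G : SimpleGraph (Fin n)) (v : Fin n) (x : Ev G v) :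
    G.Adj v (oe G v x) := by
  unfold oe
  by_cases h : x.1.1.1 = v
  · rw [if_pos h]
    have := x.1.2.2
    rwa [h] at this
  · rw [if_neg h]
    have h2 : x.1.1.2 = v := x.2.resolve_left h
    have := x.1.2.2
    rw [h2] at this
    exact this.symm

theorem oe_inj {n : ℕ} (G : SimpleGraph (Fin n)) (v : Fin n) :
    Function.Injective (oe G v) := by
  intro x y h
  have hx := x.1.2.1
  have hy := y.1.2.1
  unfold oe at h
  apply Subtype.ext
  apply Subtype.ext
  apply Prod.ext
  · by_cases h1 : x.1.1.1 = v
    · by_cases h2 : y.1.1.1 = v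
      · rw [h1, h2]
      · exfalso
        have h3 : y.1.1.2 = v := y.2.resolve_left h2
        rw [if_pos h1, if_neg h2] at h
        rw [h1, h] at hx
        rw [h3] at hy
        exact lt_asymm hx hy
    · by_cases h2 : y.1.1.1 = v
      · exfalso
        have h3 : x.1.1.2 = v := x.2.resolve_left h1
        rw [if_neg h1, if_pos h2] at h
        rw [h2, ← h] at hy
        rw [h3] at hx
        exact lt_asymm hx hy
      · rw [if_neg h1, if_neg h2] at h
        exact h
  · by_cases h1 : x.1.1.1 = v
    · by_cases h2 : y.1.1.1 = v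
      · rw [if_pos h1, if_pos h2] at h
        exact h
      · exfalso
        have h3 : y.1.1.2 = v := y.2.resolve_left h2
        rw [if_pos h1, if_neg h2] at h
        rw [h1, h] at hx
        rw [h3] at hy
        exact lt_asymm hx hy
    · by_cases h2 : y.1.1.1 = v
      · exfalso
        have h3 : x.1.1.2 = v := x.2.resolve_left h1
        rw [if_neg h1, if_pos h2] at h
        rw [h2, ← h] at hy
        rw [h3] at hx
        exact lt_asymm hx hy
      · have h3 : x.1.1.2 = v := x.2.resolve_left h1
        have h4 : y.1.1.2 = v := y.2.resolve_left h2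
        rw [h3, h4]

theorem card_Ev {n : ℕ} (G : SimpleGraph (Fin n)) (v : Fin n) :
    Nat.card (Ev G v) ≤ Nat.card (G.neighborSet v) :=
  Nat.card_le_card_of_injective (fun x => ⟨oe G v x, oe_adj G v x⟩)
    (fun _ _ h => oe_inj G v (congrArg Subtype.val h))

/-- the two horizontal equations at `v` -/
noncomputable def Phi {n : ℕ} (G : SimpleGraph (Fin n)) (v : Fin n) (p : Fin n → Pt)
    [Fintype (Ev G v)] : (Ev G v → ℝ) →ₗ[ℝ] (ℝ × ℝ) where
  toFun lam := (∑ x, lam x * (p v 0 - p (oe G v x) 0), ∑ x, lam x * (p v 1 - p (oe G v x) 1))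
  map_add' a b := by
    ext <;> simp [add_mul, Finset.sum_add_distrib]
  map_smul' c a := by
    ext <;> simp [mul_assoc, Finset.mul_sum]

theorem finrank_ker_Phi {n : ℕ} (G : SimpleGraph (Fin n)) (v : Fin n) (p : Fin n → Pt)
    [Fintype (Ev G v)] (hn : 3 ≤ n)
    (hW : ∀ i j k : Fin n, i ≠ j → i ≠ k → j ≠ k → det2 p i j k ≠ 0) :
    Module.finrank ℝ (LinearMap.ker (Phi G v p)) ≤ Fintype.card (Ev G v) - 2 := by
  classical
  have h0 := LinearMap.finrank_range_add_finrank_ker (Phi G v p)
  rw [Module.finrank_fintype_fun_eq_card] at h0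
  rcases Nat.lt_or_ge (Fintype.card (Ev G v)) 2 with hlt | hge
  · -- at most one edge: the kernel is trivial
    rcases Nat.eq_zero_or_pos (Fintype.card (Ev G v)) with hz | hpos
    · omega
    · have hone : Fintype.card (Ev G v) = 1 := by omega
      have hker : LinearMap.ker (Phi G v p) = ⊥ := by
        rw [LinearMap.ker_eq_bot']
        intro lam hlam
        obtain ⟨x0, hx0⟩ := Fintype.card_eq_one_iff.1 hone
        obtain ⟨w, hw1, hw2⟩ : ∃ w : Fin n, w ≠ v ∧ w ≠ oe G v x0 := by
          by_contra hcon
          push Not at hcon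
          have : (univ : Finset (Fin n)) ⊆ {v, oe G v x0} := by
            intro w _
            by_cases hwv : w = v
            · simp [hwv]
            · simp [hcon w hwv]
          have h1 := Finset.card_le_card this
          rw [Finset.card_univ, Fintype.card_fin] at h1
          have h2 : ({v, oe G v x0} : Finset (Fin n)).card ≤ 2 := Finset.card_le_two
          omega
        have hd := hW v (oe G v x0) w (oe_adj G v x0).ne hw1.symm hw2.symm
        have h1 := congrArg Prod.fst hlam
        have h2 := congrArg Prod.snd hlam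
        have hs : ∀ f : Ev G v → ℝ, ∑ x, f x = f x0 := by
          intro f
          exact Fintype.sum_eq_single x0 (fun x hx => absurd (hx0 x) hx)
        simp only [Phi, LinearMap.coe_mk, AddHom.coe_mk, hs, Prod.fst_zero, Prod.snd_zero] at h1 h2
        funext x
        rw [hx0 x]
        by_contra hne
        have hne' : lam x0 ≠ 0 := hne
        apply hd
        unfold det2
        have e1 : p v 0 - p (oe G v x0) 0 = 0 := (mul_eq_zero.1 h1).resolve_left hne'
        have e2 : p v 1 - p (oe G v x0) 1 = 0 := (mul_eq_zero.1 h2).resolve_left hne'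
        have e1' : p (oe G v x0) 0 - p v 0 = 0 := by linarith
        have e2' : p (oe G v x0) 1 - p v 1 = 0 := by linarith
        rw [e1', e2']
        ring
      rw [hker, finrank_bot]
      omega
  · -- at least two edges: surjective
    obtain ⟨x, y, hxy⟩ := Fintype.one_lt_card_iff.1 (by omega : 1 < Fintype.card (Ev G v))
    have hd := hW v (oe G v x) (oe G v y) (oe_adj G v x).ne (oe_adj G v y).ne
      (fun h => hxy (oe_inj G v h))
    have hsurj : Function.Surjective (Phi G v p) := by
      rintro ⟨r, s⟩
      unfold det2 at hd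
      set a := p v 0 - p (oe G v x) 0 with ha
      set b := p v 0 - p (oe G v y) 0 with hb
      set c := p v 1 - p (oe G v x) 1 with hc
      set d := p v 1 - p (oe G v y) 1 with hd'
      have hdet : a * d - c * b ≠ 0 := by
        intro h
        apply hd
        have e1 : p (oe G v x) 0 - p v 0 = -a := by rw [ha]; ring
        have e2 : p (oe G v y) 0 - p v 0 = -b := by rw [hb]; ring
        have e3 : p (oe G v x) 1 - p v 1 = -c := by rw [hc]; ring
        have e4 : p (oe G v y) 1 - p v 1 = -d := by rw [hd']; ring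
        rw [e1, e2, e3, e4]
        linarith
      refine ⟨fun z => if z = x then (r * d - b * s) / (a * d - c * b)
        else if z = y then (a * s - c * r) / (a * d - c * b) else 0, ?_⟩
      have hsum : ∀ f : Ev G v → ℝ, ∑ z, (if z = x then (r * d - b * s) / (a * d - c * b)
        else if z = y then (a * s - c * r) / (a * d - c * b) else 0) * f z
          = (r * d - b * s) / (a * d - c * b) * f x + (a * s - c * r) / (a * d - c * b) * f y := by
        intro f
        have h1 : ∀ z, (if z = x then (r * d - b * s) / (a * d - c * b)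
            else if z = y then (a * s - c * r) / (a * d - c * b) else 0) * f z
            = (if z = x then (r * d - b * s) / (a * d - c * b) * f x else 0)
              + (if z = y then (a * s - c * r) / (a * d - c * b) * f y else 0) := by
          intro z
          by_cases h1 : z = x
          · rw [if_pos h1, if_pos h1, if_neg (fun h2 => hxy (h1.symm.trans h2)), h1, add_zero]
          · by_cases h2 : z = y
            · rw [if_neg h1, if_pos h2, if_neg h1, if_pos h2, h2, zero_add]
            · rw [if_neg h1, if_neg h2, if_neg h1, if_neg h2]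
              ring
        rw [Finset.sum_congr rfl fun z _ => h1 z, Finset.sum_add_distrib]
        simp
      simp only [Phi, LinearMap.coe_mk, AddHom.coe_mk, hsum]
      rw [← ha, ← hb, ← hc, ← hd']
      ext
      · simp only
        rw [div_mul_eq_mul_div, div_mul_eq_mul_div, ← add_div, div_eq_iff hdet]
        ring
      · simp only
        rw [div_mul_eq_mul_div, div_mul_eq_mul_div, ← add_div, div_eq_iff hdet]
        ring
    have hr : Module.finrank ℝ (LinearMap.range (Phi G v p)) = 2 := by
      rw [LinearMap.range_eq_top.2 hsurj, finrank_top]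
      simp
    omega

/-- At most `deg v - 2` dependent placements on a vertical line through `v`. -/
theorem count_dep {n : ℕ} (G : SimpleGraph (Fin n)) (v : Fin n) (p : Fin n → Pt)
    (hRI : RI G p) (hn : 3 ≤ n)
    (hW : ∀ i j k : Fin n, i ≠ j → i ≠ k → j ≠ k → det2 p i j k ≠ 0)
    (S : Finset ℝ) (hS : ∀ t ∈ S, ¬ RI G (p + t • dd v)) :
    S.card ≤ Nat.card (G.neighborSet v) - 2 := by
  classical
  have : Fintype (Ix G) := Fintype.ofFinite _
  have : Fintype (Ev G v) := Fintype.ofFinite _
  have hcard : Fintype.card (Ev G v) ≤ Nat.card (G.neighborSet v) := by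
    rw [← Nat.card_eq_fintype_card]
    exact card_Ev G v
  refine le_trans ?_ (Nat.sub_le_sub_right hcard 2)
  refine le_trans ?_ (finrank_ker_Phi G v p hn hW)
  -- the linear maps
  let A0 : (Ix G → ℝ) →ₗ[ℝ] (Fin n → Pt) :=
    Fintype.linearCombination ℝ (fun x : Ix G => Row p x.1.1 x.1.2)
  let A1 : (Ix G → ℝ) →ₗ[ℝ] (Fin n → Pt) :=
    Fintype.linearCombination ℝ (fun x : Ix G => Row (dd v) x.1.1 x.1.2)
  have hA0 : LinearMap.ker A0 = ⊥ := by
    rw [LinearMap.ker_eq_bot']
    intro c hc
    have h1 : ∑ x : Ix G, c x • Row p x.1.1 x.1.2 = 0 := hc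
    have h2 := Fintype.linearIndependent_iff.1 hRI c h1
    funext x
    exact h2 x
  obtain ⟨L, hL⟩ := LinearMap.exists_leftInverse_of_injective A0 hA0
  let res : (Ix G → ℝ) →ₗ[ℝ] (Ev G v → ℝ) := LinearMap.funLeft ℝ ℝ (fun x : Ev G v => x.1)
  let ext0 : (Ev G v → ℝ) →ₗ[ℝ] (Ix G → ℝ) :=
    { toFun := fun lam x => if h : x.1.1 = v ∨ x.1.2 = v then lam ⟨x, h⟩ else 0
      map_add' := by
        intro a b
        funext x
        simp only [Pi.add_apply]
        split_ifs <;> simp
      map_smul' := by
        intro c a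
        funext x
        simp only [Pi.smul_apply, RingHom.id_apply]
        split_ifs <;> simp }
  have hA1 : ∀ c, A1 (ext0 (res c)) = A1 c := by
    intro c
    show ∑ x : Ix G, (ext0 (res c)) x • Row (dd v) x.1.1 x.1.2
      = ∑ x : Ix G, c x • Row (dd v) x.1.1 x.1.2
    refine Finset.sum_congr rfl fun x _ => ?_
    by_cases h : x.1.1 = v ∨ x.1.2 = v
    · have : (ext0 (res c)) x = c x := by
        show (if h : x.1.1 = v ∨ x.1.2 = v then (res c) ⟨x, h⟩ else 0) = c x
        rw [dif_pos h]
        rfl
      rw [this]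
    · push Not at h
      rw [row_dd v _ _ h.1 h.2, smul_zero, smul_zero]
  let M : Module.End ℝ (Ev G v → ℝ) := -(res ∘ₗ L ∘ₗ A1 ∘ₗ ext0)
  -- a dependence for every member of `S`
  have hdep : ∀ t : S, ∃ c : Ix G → ℝ, c ≠ 0 ∧
      ∑ x : Ix G, c x • Row (p + (t : ℝ) • dd v) x.1.1 x.1.2 = 0 := by
    intro t
    have h1 := hS t t.2
    unfold RI at h1
    rw [Fintype.not_linearIndependent_iff] at h1
    obtain ⟨c, hc, i, hi⟩ := h1
    exact ⟨c, fun h => hi (by rw [h]; rfl), hc⟩
  choose c hc0 hc using hdep
  have hAc : ∀ t : S, A0 (c t) + (t : ℝ) • A1 (c t) = 0 := by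
    intro t
    rw [← hc t]
    show ∑ x : Ix G, c t x • Row p x.1.1 x.1.2
      + (t : ℝ) • ∑ x : Ix G, c t x • Row (dd v) x.1.1 x.1.2 = _
    rw [Finset.smul_sum, ← Finset.sum_add_distrib]
    refine Finset.sum_congr rfl fun x _ => ?_
    rw [row_lin, smul_add, smul_comm]
  have ht0 : ∀ t : S, (t : ℝ) ≠ 0 := by
    intro t ht
    have h1 := hAc t
    rw [ht, zero_smul, add_zero] at h1
    exact hc0 t (LinearMap.ker_eq_bot'.1 hA0 _ h1)
  have hcL : ∀ t : S, c t = -(t : ℝ) • L (A1 (c t)) := by
    intro t
    have h1 := congrArg L (hAc t)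
    rw [map_add, map_smul, map_zero] at h1
    have h2 : L (A0 (c t)) = c t := by
      have := LinearMap.congr_fun hL (c t)
      simpa using this
    rw [h2] at h1
    rw [neg_smul]
    exact eq_neg_of_add_eq_zero_left h1
  have hlam0 : ∀ t : S, res (c t) ≠ 0 := by
    intro t h
    apply hc0 t
    rw [hcL t, ← hA1, h, map_zero, map_zero, map_zero, smul_zero]
  have heig : ∀ t : S, M.HasEigenvector ((t : ℝ)⁻¹) (res (c t)) := by
    intro t
    rw [Module.End.hasEigenvector_iff, Module.End.mem_eigenspace_iff]
    refine ⟨?_, hlam0 t⟩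
    show -(res (L (A1 (ext0 (res (c t)))))) = (t : ℝ)⁻¹ • res (c t)
    rw [hA1]
    have h1 : res (c t) = -(t : ℝ) • res (L (A1 (c t))) := by
      conv_lhs => rw [hcL t]
      rw [map_smul]
    conv_rhs => rw [h1]
    rw [smul_smul, mul_neg, inv_mul_cancel₀ (ht0 t), neg_smul, one_smul]
  have hinj : Function.Injective (fun t : S => ((t : ℝ))⁻¹) := by
    intro s t h
    exact Subtype.ext (inv_injective h)
  have hli := Module.End.eigenvectors_linearIndependent' M (fun t : S => ((t : ℝ))⁻¹) hinj
    (fun t => res (c t)) heig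
  have hmem : ∀ t : S, res (c t) ∈ LinearMap.ker (Phi G v p) := by
    intro t
    rw [LinearMap.mem_ker]
    have key : ∀ r : Fin 3, r ≠ 2 → ∑ x : Ev G v, res (c t) x * (p v r - p (oe G v x) r) = 0 := by
      intro r hr
      have h1 := congrFun (congrFun (hc t) v) r
      rw [Finset.sum_apply, Finset.sum_apply] at h1
      have h2 : ∀ x : Ix G, (c t x • Row (p + (t : ℝ) • dd v) x.1.1 x.1.2) v r
          = if h : x.1.1 = v ∨ x.1.2 = v then
            res (c t) ⟨x, h⟩ * (p v r - p (oe G v ⟨x, h⟩) r) else 0 := by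
        intro x
        have e1 : ∀ k, (p + (t : ℝ) • dd v) k r = p k r := by
          intro k
          simp [dd, hr]
        by_cases h : x.1.1 = v ∨ x.1.2 = v
        · rw [dif_pos h]
          show c t x * (Row (p + (t : ℝ) • dd v) x.1.1 x.1.2) v r
            = c t x * (p v r - p (oe G v ⟨x, h⟩) r)
          congr 1
          unfold Row oe
          by_cases h1 : x.1.1 = v
          · rw [if_pos h1.symm]
            simp only [if_pos h1]
            rw [Pi.sub_apply, e1, e1, h1]
          · have h2 : x.1.2 = v := h.resolve_left h1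
            rw [if_neg (Ne.symm h1), if_pos h2.symm]
            simp only [if_neg h1]
            rw [Pi.sub_apply, e1, e1, h2]
        · rw [dif_neg h]
          push Not at h
          show c t x * (Row (p + (t : ℝ) • dd v) x.1.1 x.1.2) v r = 0
          unfold Row
          rw [if_neg (Ne.symm h.1), if_neg (Ne.symm h.2)]
          simp
      rw [Finset.sum_congr rfl fun x _ => h2 x] at h1
      rw [Finset.sum_dite] at h1
      simp only [Finset.sum_const_zero, add_zero, Pi.zero_apply] at h1
      rw [← h1]
      refine Finset.sum_bij (fun x _ => ⟨x.1, by simpa using x.2⟩) ?_ ?_ ?_ ?_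
      · intro x _
        exact Finset.mem_attach _ _
      · intro x _ y _ h
        exact Subtype.ext (congrArg (fun z => z.1) h)
      · intro y _
        exact ⟨⟨y.1, (Finset.mem_filter.1 y.2).2⟩, Finset.mem_univ _, rfl⟩
      · intro x _
        rfl
    show (_, _) = (0 : ℝ × ℝ)
    rw [Prod.mk_eq_zero]
    exact ⟨key 0 (by decide), key 1 (by decide)⟩
  have hli2 : LinearIndependent ℝ (fun t : S => (⟨res (c t), hmem t⟩ :
      LinearMap.ker (Phi G v p))) :=
    LinearIndependent.of_comp (LinearMap.ker (Phi G v p)).subtype hli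
  have h1 := hli2.fintype_card_le_finrank
  rwa [Fintype.card_coe] at h1

end Pool.Agent.Helper40.XA
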