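import Pool.Agent.Helper40.XA.Cnt

set_option autoImplicit false

/-! Counting sets of four vertices whose coplanarity forces dependence. -/

namespace Pool.Agent.Helper40.XA

open Finset
open Pool.Agent.Helper65.XR (Pt RI Row D4 ee Mot XI e5 Qf Lf GPos Good)
open Pool.Agent.Helper65.XR.GEN (Ix)

theorem D4_perm {n : ℕ} (p : Fin n → Pt) (i : Fin 4 → Fin n) (σ : Equiv.Perm (Fin 4)) :
    D4 p (i ∘ σ) = ((Equiv.Perm.sign σ : ℤ) : ℝ) * D4 p i := by
  unfold D4
  rw [← Matrix.det_permute]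
  rfl

theorem D4_perm_zero {n : ℕ} (p : Fin n → Pt) (i : Fin 4 → Fin n) (σ : Equiv.Perm (Fin 4)) :
    D4 p (i ∘ σ) = 0 ↔ D4 p i = 0 := by
  rw [D4_perm]
  constructor
  · intro h
    rcases mul_eq_zero.1 h with h | h
    · exfalso
      have : ((Equiv.Perm.sign σ : ℤ) : ℝ) ≠ 0 := by
        rcases Int.units_eq_one_or (Equiv.Perm.sign σ) with h1 | h1 <;> rw [h1] <;> simp
      exact this h
    · exact h
  · intro h
    rw [h, mul_zero]

theorem D4_slope {n : ℕ} (p : Fin n → Pt) (i : Fin 4 → Fin n) (v : Fin n) (t : ℝ)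
    (h0 : i 0 = v) (h1 : i 1 ≠ v) (h2 : i 2 ≠ v) (h3 : i 3 ≠ v) :
    D4 (p + t • dd v) i = D4 p i - t * det2 p (i 1) (i 2) (i 3) := by
  rw [Pool.Agent.Helper65.XR.GEN.D4_eq, Pool.Agent.Helper65.XR.GEN.D4_eq,
    Pool.Agent.Helper65.XR.GEN.D_expand, Pool.Agent.Helper65.XR.GEN.D_expand]
  unfold det2 dd
  simp only [Pi.add_apply, Pi.smul_apply, smul_eq_mul, h0, h1, h2, h3, false_and, if_false,
    true_and, Fin.reduceEq, if_true, mul_zero, add_zero, mul_one]
  ring

/-- points on a parabola, one of them lifted -/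
def mom {n : ℕ} (w : Fin n) : Fin n → Pt :=
  fun k => ![(k : ℕ), ((k : ℕ) : ℝ) ^ 2, if k = w then 1 else 0]

theorem det2_mom {n : ℕ} (w i j k : Fin n) (hij : i ≠ j) (hik : i ≠ k) (hjk : j ≠ k) :
    det2 (mom w) i j k ≠ 0 := by
  have h : det2 (mom w) i j k = (((j : ℕ) : ℝ) - (i : ℕ)) * (((k : ℕ) : ℝ) - (i : ℕ))
      * (((k : ℕ) : ℝ) - (j : ℕ)) := by
    unfold det2 mom
    simp only [Matrix.cons_val_zero, Matrix.cons_val_one]
    ring
  rw [h]
  have e : ∀ a b : Fin n, a ≠ b → (((b : ℕ) : ℝ) - (a : ℕ)) ≠ 0 := by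
    intro a b hab h
    apply hab
    have : ((b : ℕ) : ℝ) = (a : ℕ) := by linarith
    exact (Fin.ext (by exact_mod_cast this)).symm
  exact mul_ne_zero (mul_ne_zero (e i j hij) (e i k hik)) (e j k hjk)

theorem det2_lpf {n : ℕ} (i j k : Fin n) : LPF (fun p : Fin n → Pt => det2 p i j k) := by
  intro q hq
  unfold det2
  exact (((hq _ _).sub (hq _ _)).mul ((hq _ _).sub (hq _ _))).sub
    (((hq _ _).sub (hq _ _)).mul ((hq _ _).sub (hq _ _)))

theorem D4_mom_zero {n : ℕ} (w : Fin n) (i : Fin 4 → Fin n) (h : ∀ r, i r ≠ w) :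
    D4 (mom w) i = 0 := by
  rw [Pool.Agent.Helper65.XR.GEN.D4_eq, Pool.Agent.Helper65.XR.GEN.D_expand]
  have hz : ∀ r, mom w (i r) 2 = 0 := by
    intro r
    simp [mom, h r]
  rw [hz, hz, hz, hz]
  ring

theorem D4_mom_ne {n : ℕ} (w : Fin n) (i : Fin 4 → Fin n) (hi : Function.Injective i)
    (r : Fin 4) (hr : i r = w) (hr0 : r ≠ 0) : D4 (mom w) i ≠ 0 := by
  have hz : ∀ s, s ≠ r → mom w (i s) 2 = 0 := by
    intro s hs
    have : i s ≠ w := by
      rw [← hr]
      exact fun h => hs (hi h)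
    simp [mom, this]
  have h1 : mom w (i r) 2 = 1 := by
    simp [mom, hr]
  rw [Pool.Agent.Helper65.XR.GEN.D4_eq, Pool.Agent.Helper65.XR.GEN.D_expand]
  have z0 := hz 0 hr0.symm
  fin_cases r
  · exact absurd rfl hr0
  · have z2 := hz 2 (by decide)
    have z3 := hz 3 (by decide)
    have hd := det2_mom w (i 0) (i 2) (i 3) (fun h => absurd (hi h) (by decide))
      (fun h => absurd (hi h) (by decide)) (fun h => absurd (hi h) (by decide))
    intro h
    apply hd
    unfold det2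
    simp only [Fin.mk_one, Fin.isValue] at h1
    rw [z0, z2, z3, h1] at h
    linarith
  · have z1 := hz 1 (by decide)
    have z3 := hz 3 (by decide)
    have hd := det2_mom w (i 0) (i 1) (i 3) (fun h => absurd (hi h) (by decide))
      (fun h => absurd (hi h) (by decide)) (fun h => absurd (hi h) (by decide))
    intro h
    apply hd
    unfold det2
    simp only [Fin.reduceFinMk, Fin.isValue] at h1
    rw [z0, z1, z3, h1] at h
    linarith
  · have z1 := hz 1 (by decide)
    have z2 := hz 2 (by decide)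
    have hd := det2_mom w (i 0) (i 1) (i 2) (fun h => absurd (hi h) (by decide))
      (fun h => absurd (hi h) (by decide)) (fun h => absurd (hi h) (by decide))
    intro h
    apply hd
    unfold det2
    simp only [Fin.reduceFinMk, Fin.isValue] at h1
    rw [z0, z1, z2, h1] at h
    linarith

/-- every placement in which the points of `T` are coplanar is dependent -/
def Bad4 {n : ℕ} (G : SimpleGraph (Fin n)) (T : Finset (Fin n)) : Prop :=
  ∃ i : Fin 4 → Fin n, Function.Injective i ∧ univ.image i = T ∧ ∀ p, D4 p i = 0 → ¬ RI G p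

theorem count_bad {n : ℕ} (G : SimpleGraph (Fin n)) (hG : ∃ p, RI G p) (v : Fin n)
    (F : Finset (Finset (Fin n))) (hF : ∀ T ∈ F, v ∈ T ∧ Bad4 G T) :
    F.card ≤ Nat.card (G.neighborSet v) - 2 := by
  classical
  rcases F.eq_empty_or_nonempty with rfl | ⟨T0, hT0⟩
  · simp
  have hN : Nonempty (Fin n) := ⟨v⟩
  have hI : ∀ T ∈ F, ∃ i : Fin 4 → Fin n, Function.Injective i ∧ univ.image i = T ∧
      i 0 = v ∧ ∀ p, D4 p i = 0 → ¬ RI G p := by
    intro T hT
    obtain ⟨hv, i, hi, hiT, hb⟩ := hF T hT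
    rw [← hiT, mem_image] at hv
    obtain ⟨r, _, hr⟩ := hv
    refine ⟨i ∘ Equiv.swap 0 r, hi.comp (Equiv.injective _), ?_, ?_, ?_⟩
    · rw [← hiT]
      ext x
      simp only [mem_image, mem_univ, true_and, Function.comp]
      constructor
      · rintro ⟨s, hs⟩
        exact ⟨_, hs⟩
      · rintro ⟨s, hs⟩
        exact ⟨Equiv.swap 0 r s, by rw [Equiv.swap_apply_self]; exact hs⟩
    · simp only [Function.comp, Equiv.swap_apply_left]
      exact hr
    · intro p hp
      exact hb p ((D4_perm_zero p i _).1 hp)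
  choose! I hI1 hI2 hI3 hI4 using hI
  have hn : 3 ≤ n := by
    have h1 := Fintype.card_le_of_injective _ (hI1 T0 hT0)
    rw [Fintype.card_fin, Fintype.card_fin] at h1
    omega
  have hIne : ∀ T ∈ F, ∀ r s : Fin 4, r ≠ s → I T r ≠ I T s := fun T hT r s hrs h =>
    hrs (hI1 T hT h)
  -- the conditions
  let f1 : Fin n × Fin n × Fin n → (Fin n → Pt) → ℝ := fun x p => det2 p x.1 x.2.1 x.2.2
  let f2 : Finset (Fin n) × Finset (Fin n) → (Fin n → Pt) → ℝ := fun y p =>
    D4 p (I y.1) * det2 p (I y.2 1) (I y.2 2) (I y.2 3)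
      - D4 p (I y.2) * det2 p (I y.1 1) (I y.1 2) (I y.1 3)
  let s : Finset ((Fin n → Pt) → ℝ) := insert (rr G)
    (((univ : Finset (Fin n × Fin n × Fin n)).filter
      (fun x => x.1 ≠ x.2.1 ∧ x.1 ≠ x.2.2 ∧ x.2.1 ≠ x.2.2)).image f1 ∪
      ((F ×ˢ F).filter (fun y => y.1 ≠ y.2)).image f2)
  obtain ⟨p, hp⟩ := exists_common s id (by
    intro g hg
    rcases mem_insert.1 hg with rfl | hg
    · exact rr_lpf G
    · rcases mem_union.1 hg with hg | hg
      · obtain ⟨x, _, rfl⟩ := mem_image.1 hg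
        exact det2_lpf _ _ _
      · obtain ⟨y, _, rfl⟩ := mem_image.1 hg
        intro q hq
        exact (((D4_lpf _) q hq).mul ((det2_lpf _ _ _) q hq)).sub
          (((D4_lpf _) q hq).mul ((det2_lpf _ _ _) q hq))) (by
    intro g hg
    rcases mem_insert.1 hg with rfl | hg
    · obtain ⟨p, hp⟩ := hG
      exact ⟨p, (rr_ne G p).2 hp⟩
    · rcases mem_union.1 hg with hg | hg
      · obtain ⟨x, hx, rfl⟩ := mem_image.1 hg
        obtain ⟨_, h1, h2, h3⟩ := mem_filter.1 hx
        exact ⟨mom v, det2_mom v _ _ _ h1 h2 h3⟩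
      · obtain ⟨y, hy, rfl⟩ := mem_image.1 hg
        obtain ⟨hy1, hy2⟩ := mem_filter.1 hy
        obtain ⟨hT, hT'⟩ := mem_product.1 hy1
        have hcard : ∀ T ∈ F, T.card = 4 := by
          intro T hT
          rw [← hI2 T hT, card_image_of_injective _ (hI1 T hT)]
          simp
        obtain ⟨w, hw1, hw2⟩ : ∃ w ∈ y.1, w ∉ y.2 := by
          by_contra hcon
          push Not at hcon
          exact hy2 (Finset.eq_of_subset_of_card_le hcon
            (by rw [hcard _ hT, hcard _ hT']))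
        have hw1' := hw1
        rw [← hI2 _ hT, mem_image] at hw1'
        obtain ⟨r, _, hr⟩ := hw1'
        have hr0 : r ≠ 0 := by
          rintro rfl
          apply hw2
          rw [← hr, hI3 _ hT]
          exact (hF _ hT').1
        have hA : D4 (mom w) (I y.2) = 0 := D4_mom_zero w _ fun r' h => by
          apply hw2
          have h1 := mem_image_of_mem (I y.2) (mem_univ r')
          rwa [hI2 _ hT', h] at h1
        refine ⟨mom w, ?_⟩
        show D4 (mom w) (I y.1) * det2 (mom w) (I y.2 1) (I y.2 2) (I y.2 3)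
          - D4 (mom w) (I y.2) * det2 (mom w) (I y.1 1) (I y.1 2) (I y.1 3) ≠ 0
        rw [hA, zero_mul, sub_zero]
        exact mul_ne_zero (D4_mom_ne w _ (hI1 _ hT) r hr hr0) (det2_mom w _ _ _
          (hIne _ hT' _ _ (by decide)) (hIne _ hT' _ _ (by decide))
          (hIne _ hT' _ _ (by decide))))
  have hRI : RI G p := (rr_ne G p).1 (hp (rr G) (mem_insert_self _ _))
  have hW : ∀ i j k : Fin n, i ≠ j → i ≠ k → j ≠ k → det2 p i j k ≠ 0 := by
    intro i j k h1 h2 h3
    exact hp (f1 (i, j, k)) (mem_insert_of_mem (mem_union_left _ (mem_image_of_mem _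
      (mem_filter.2 ⟨mem_univ _, h1, h2, h3⟩))))
  have hD : ∀ T ∈ F, ∀ T' ∈ F, T ≠ T' → D4 p (I T) * det2 p (I T' 1) (I T' 2) (I T' 3)
      - D4 p (I T') * det2 p (I T 1) (I T 2) (I T 3) ≠ 0 := by
    intro T hT T' hT' h
    exact hp (f2 (T, T')) (mem_insert_of_mem (mem_union_right _ (mem_image_of_mem _
      (mem_filter.2 ⟨mem_product.2 ⟨hT, hT'⟩, h⟩))))
  have hW' : ∀ T ∈ F, det2 p (I T 1) (I T 2) (I T 3) ≠ 0 := fun T hT =>
    hW _ _ _ (hIne T hT _ _ (by decide)) (hIne T hT _ _ (by decide)) (hIne T hT _ _ (by decide))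
  let tt : Finset (Fin n) → ℝ := fun T => D4 p (I T) / det2 p (I T 1) (I T 2) (I T 3)
  have hinj : Set.InjOn tt F := by
    intro T hT T' hT' h
    by_contra hne
    apply hD T hT T' hT' hne
    have h1 : D4 p (I T) / det2 p (I T 1) (I T 2) (I T 3)
        = D4 p (I T') / det2 p (I T' 1) (I T' 2) (I T' 3) := h
    rw [div_eq_div_iff (hW' T hT) (hW' T' hT')] at h1
    linarith
  rw [← card_image_of_injOn hinj]
  refine count_dep G v p hRI hn hW _ ?_
  intro t ht
  obtain ⟨T, hT, rfl⟩ := mem_image.1 ht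
  apply hI4 T hT
  have hne : ∀ r : Fin 4, r ≠ 0 → I T r ≠ v := by
    intro r hr h
    rw [← hI3 T hT] at h
    exact hr (hI1 T hT h)
  rw [D4_slope p (I T) v _ (hI3 T hT) (hne 1 (by decide)) (hne 2 (by decide))
    (hne 3 (by decide))]
  show D4 p (I T) - D4 p (I T) / det2 p (I T 1) (I T 2) (I T 3)
    * det2 p (I T 1) (I T 2) (I T 3) = 0
  rw [div_mul_cancel₀ _ (hW' T hT), sub_self]

end Pool.Agent.Helper40.XA
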