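import Pool.Agent.Helper40.XA.Poly

set_option autoImplicit false

/-! A placement in which the four end points of the two edges are coplanar. -/

namespace Pool.Agent.Helper40.XA

open Finset
open Pool.Agent.Helper65.XR (Pt RI Row D4 ee Mot XI e5 Qf Lf GPos Good)

/-- The X-replacement is independent if the edges `t 0 t 1`, `t 2 t 3` are coplanar in an
independent placement (and in general position otherwise). -/
theorem cop_XI {n : ℕ} (G H : SimpleGraph (Fin n)) (hHG : H ≤ G) (t : Fin 5 → Fin n)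
    (ht : Function.Injective t) (h01 : G.Adj (t 0) (t 1)) (h23 : G.Adj (t 2) (t 3))
    (n01 : ¬ H.Adj (t 0) (t 1)) (n23 : ¬ H.Adj (t 2) (t 3)) (p : Fin n → Pt) (hRI : RI G p)
    (α : Fin 4 → ℝ) (hα : ∀ k, α k ≠ 0) (hs : ∑ k, α k = 0)
    (hp : ∑ k, α k • p (t k.castSucc) = 0) (hα01 : α 0 + α 1 ≠ 0)
    (hD : D4 p ![t 0, t 1, t 2, t 4] ≠ 0) : XI H t := by
  have hr := Pool.Agent.Helper65.XR.row_pair
  have hd := Pool.Agent.Helper65.XR.dual
  obtain ⟨u, hu1, hu0⟩ := Pool.Agent.Helper65.XR.badm_dual hr hd G p hRI (t 0) (t 1) h01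
  obtain ⟨v, hv1, hv0⟩ := Pool.Agent.Helper65.XR.badm_dual hr hd G p hRI (t 2) (t 3) h23
  have hmu : Mot H p u := Pool.Agent.Helper65.XR.badm_mot G H hHG p u _ _ n01 hu0
  have hmv : Mot H p v := Pool.Agent.Helper65.XR.badm_mot G H hHG p v _ _ n23 hv0
  have hne : ¬ (s(t 2, t 3) = s(t 0, t 1)) := by
    intro h
    rw [Sym2.eq_iff] at h
    rcases h with ⟨h1, _⟩ | ⟨h1, _⟩
    · exact absurd (ht h1) (by decide)
    · exact absurd (ht h1) (by decide)
  have eu23 : ee p u (t 2) (t 3) = 0 := hu0 _ _ h23 hne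
  have ev01 : ee p v (t 0) (t 1) = 0 := hv0 _ _ h01 (fun h => hne h.symm)
  have hα0 := hα 0
  have hα1 := hα 1
  have hα2 := hα 2
  have hα3 := hα 3
  rw [Fin.sum_univ_four] at hs hp
  have hcoord : ∀ r, α 0 * p (t 0) r + α 1 * p (t 1) r + α 2 * p (t 2) r + α 3 * p (t 3) r = 0 := by
    intro r
    have := congrFun hp r
    simpa using this
  refine Pool.Agent.Helper65.XR.ex hr n H t ht p
    ((α 0 + α 1)⁻¹ • (α 0 • p (t 0) + α 1 • p (t 1)))
    (Pool.Agent.Helper65.XR.badm_RI_mono G H hHG p hRI) ?_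
  intro lam hlam hmot
  have q0 : p (t 0) - (α 0 + α 1)⁻¹ • (α 0 • p (t 0) + α 1 • p (t 1))
      = (α 1 / (α 0 + α 1)) • (p (t 0) - p (t 1)) := by
    funext r
    simp only [Pi.sub_apply, Pi.smul_apply, Pi.add_apply, smul_eq_mul]
    field_simp
    ring
  have q1 : p (t 1) - (α 0 + α 1)⁻¹ • (α 0 • p (t 0) + α 1 • p (t 1))
      = (-(α 0 / (α 0 + α 1))) • (p (t 0) - p (t 1)) := by
    funext r
    simp only [Pi.sub_apply, Pi.smul_apply, Pi.add_apply, smul_eq_mul]
    field_simp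
    ring
  have hs' : α 3 = -(α 0 + α 1) - α 2 := by linarith
  have q2 : p (t 2) - (α 0 + α 1)⁻¹ • (α 0 • p (t 0) + α 1 • p (t 1))
      = (-(α 3 / (α 0 + α 1))) • (p (t 2) - p (t 3)) := by
    funext r
    have := hcoord r
    simp only [Pi.sub_apply, Pi.smul_apply, Pi.add_apply, smul_eq_mul]
    field_simp
    have h2 : α 2 = -(α 0 + α 1) - α 3 := by linarith
    rw [h2] at this
    linear_combination (-1 : ℝ) * this
  have q3 : p (t 3) - (α 0 + α 1)⁻¹ • (α 0 • p (t 0) + α 1 • p (t 1))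
      = (α 2 / (α 0 + α 1)) • (p (t 2) - p (t 3)) := by
    funext r
    have := hcoord r
    simp only [Pi.sub_apply, Pi.smul_apply, Pi.add_apply, smul_eq_mul]
    field_simp
    rw [hs'] at this
    linear_combination (-1 : ℝ) * this
  generalize hq : (α 0 + α 1)⁻¹ • (α 0 • p (t 0) + α 1 • p (t 1)) = q at *
  -- the relation
  have hγ := aff_indep p ![t 0, t 1, t 2, t 4] hD
    ![lam 0 - lam 3 * α 0 / α 3 - (lam 0 + lam 1 + lam 2 + lam 3 + lam 4) * α 0 / (α 0 + α 1),
      lam 1 - lam 3 * α 1 / α 3 - (lam 0 + lam 1 + lam 2 + lam 3 + lam 4) * α 1 / (α 0 + α 1),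
      lam 2 - lam 3 * α 2 / α 3, lam 4] (by
      rw [Fin.sum_univ_four]
      simp only [Matrix.cons_val_zero, Matrix.cons_val_one, Matrix.cons_val_two,
        Matrix.head_cons, Matrix.tail_cons, Matrix.cons_val]
      have h2 : α 2 = -(α 0 + α 1) - α 3 := by linarith
      rw [h2]
      field_simp
      ring) (by
      rw [Fin.sum_univ_four]
      simp only [Matrix.cons_val_zero, Matrix.cons_val_one, Matrix.cons_val_two,
        Matrix.head_cons, Matrix.tail_cons, Matrix.cons_val]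
      funext r
      have h3 := hcoord r
      rw [Fin.sum_univ_five] at hlam
      have h4 := congrFun hlam r
      have h5 := congrFun hq r
      simp only [Pi.sub_apply, Pi.smul_apply, Pi.add_apply, smul_eq_mul, Pi.zero_apply] at h4 h5 ⊢
      have h6 : q r * (α 0 + α 1) = α 0 * p (t 0) r + α 1 * p (t 1) r := by
        rw [← h5]
        field_simp
      have h7 : p (t 3) r = -(α 0 * p (t 0) r + α 1 * p (t 1) r + α 2 * p (t 2) r) / α 3 := by
        field_simp
        linarith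
      have h8 : q r = (α 0 * p (t 0) r + α 1 * p (t 1) r) / (α 0 + α 1) := by
        rw [eq_div_iff hα01]
        exact h6
      rw [h7, h8] at h4
      rw [← h4]
      field_simp
      ring)
  have g0 := congrFun hγ 0
  have g1 := congrFun hγ 1
  have g2 := congrFun hγ 2
  have g3 := congrFun hγ 3
  simp only [Matrix.cons_val_zero, Matrix.cons_val_one, Matrix.cons_val_two,
        Matrix.head_cons, Matrix.tail_cons, Matrix.cons_val, Pi.zero_apply] at g0 g1 g2 g3
  obtain ⟨ν, hν⟩ : ∃ ν, ν = lam 3 / α 3 := ⟨_, rfl⟩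
  obtain ⟨μ, hμ⟩ : ∃ μ, μ = ν + (lam 0 + lam 1 + lam 2 + lam 3 + lam 4) / (α 0 + α 1) := ⟨_, rfl⟩
  have l3 : lam 3 = ν * α 3 := by rw [hν]; field_simp
  have l2 : lam 2 = ν * α 2 := by rw [hν]; linear_combination g2
  have l0 : lam 0 = μ * α 0 := by rw [hμ, hν]; linear_combination g0
  have l1 : lam 1 = μ * α 1 := by rw [hμ, hν]; linear_combination g1
  have key : ∀ w, Mot H p w → μ * (α 0 * α 1 / (α 0 + α 1)) * ee p w (t 0) (t 1)
      - ν * (α 2 * α 3 / (α 0 + α 1)) * ee p w (t 2) (t 3) = 0 := by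
    intro w hw
    have h1 := hmot w hw
    rw [Fin.sum_univ_five, q0, q1, q2, q3, g3, l0, l1, l2, l3] at h1
    simp only [smul_dotProduct, smul_eq_mul] at h1
    unfold ee
    rw [dotProduct_sub, dotProduct_sub]
    rw [← h1]
    ring
  have k1 := key u hmu
  have k2 := key v hmv
  rw [hu1, eu23] at k1
  rw [hv1, ev01] at k2
  have hμ0 : μ = 0 := by
    have h1 : μ * (α 0 * α 1 / (α 0 + α 1)) = 0 := by linarith
    rcases mul_eq_zero.1 h1 with h | h
    · exact h
    · exfalso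
      exact (div_ne_zero (mul_ne_zero hα0 hα1) hα01) h
  have hν0 : ν = 0 := by
    have h1 : ν * (α 2 * α 3 / (α 0 + α 1)) = 0 := by linarith
    rcases mul_eq_zero.1 h1 with h | h
    · exact h
    · exfalso
      exact (div_ne_zero (mul_ne_zero hα2 hα3) hα01) h
  funext i
  fin_cases i
  · simp [l0, hμ0]
  · simp [l1, hμ0]
  · simp [l2, hν0]
  · simp [l3, hν0]
  · simpa using g3

end Pool.Agent.Helper40.XA
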