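import Pool.Agent.Helper40.XA.Clq
import Pool.Agent.Helper65.XR.Loc
import Pool.Agent.Helper65.XR.Ta

set_option autoImplicit false

/-! Few fifth vertices. -/

namespace Pool.Agent.Helper40.XA

open Finset
open Pool.Agent.Helper65.XR (Pt RI Row D4 ee Mot XI e5 Qf Lf GPos Good oth Bar qv Dl Bad Indep3
  XIndep t_inj XI_to)
open Pool.Agent.Helper65.XR.GEN (Ix)

theorem mv_lpf {n : ℕ} (R : MvPolynomial (Fin n × Fin 3) ℝ) :
    LPF (fun p : Fin n → Pt => MvPolynomial.eval (fun a => p a.1 a.2) R) := by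
  intro q hq
  induction R using MvPolynomial.induction_on with
  | C a => simpa using PF.const a
  | add f g hf hg =>
    simp only [map_add]
    exact hf.add hg
  | mul_X f i hf =>
    simp only [map_mul, MvPolynomial.eval_X]
    exact hf.mul (hq i.1 i.2)

/-- the pairs of indices -/
def pr : Fin 6 → Fin 4 × Fin 4 := ![(0, 1), (0, 2), (0, 3), (1, 2), (1, 3), (2, 3)]

/-- the coefficient of a pair -/
noncomputable def cf {n : ℕ} (p : Fin n → Pt) (A : Fin 4 → Fin n) (l : Fin n) (s : Fin 6) : ℝ :=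
  D4 p (Function.update A (pr s).1 l) * D4 p (Function.update A (pr s).2 l)

/-- the minor -/
noncomputable def Wk {n : ℕ} (A : Fin 4 → Fin n) (k : ℕ) (hk : k ≤ 4) (l : Fin k → Fin n)
    (p : Fin n → Pt) : ℝ :=
  (Matrix.of fun r s : Fin k => cf p A (l r) (Fin.castLE (hk.trans (by norm_num)) s)).det

theorem Wk_lpf {n : ℕ} (A : Fin 4 → Fin n) (k : ℕ) (hk : k ≤ 4) (l : Fin k → Fin n) :
    LPF (Wk A k hk l) := by
  intro q hq
  unfold Wk cf
  refine PF.det fun r s => ?_
  exact ((D4_lpf _) q hq).mul ((D4_lpf _) q hq)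

theorem Wk_ne {n : ℕ} (A : Fin 4 → Fin n) (hA : Function.Injective A) (k : ℕ) (hk : k ≤ 4)
    (l : Fin k → Fin n) (hl : Function.Injective l) (hd : ∀ r s, A r ≠ l s) :
    ∃ p, Wk A k hk l p ≠ 0 := by
  set p : Fin n → Pt := Function.extend A Pool.Agent.Helper65.XR.GEN.e
    (Function.extend l (fun r => Pool.Agent.Helper65.XR.GEN.f (Fin.castLE hk r)) 0) with hp
  have hpi : ∀ r, p (A r) = Pool.Agent.Helper65.XR.GEN.e r := fun r => hA.extend_apply _ _ r
  have hpl : ∀ r, p (l r) = Pool.Agent.Helper65.XR.GEN.f (Fin.castLE hk r) := by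
    intro r
    rw [hp, Function.extend_apply' _ _ _ (by rintro ⟨s, hs⟩; exact hd s r hs)]
    exact hl.extend_apply _ 0 r
  have hD : ∀ m r, D4 p (Function.update A m (l r))
      = Pool.Agent.Helper65.XR.GEN.bc (Fin.castLE hk r) m := by
    intro m r
    rw [Pool.Agent.Helper65.XR.GEN.D4_eq, ← Pool.Agent.Helper65.XR.GEN.D_upd m (Fin.castLE hk r)]
    congr 1
    ext m' : 1
    by_cases hm : m' = m
    · subst hm
      simp only [Function.update_self, hpl]
    · simp only [Function.update_of_ne hm, hpi]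
  refine ⟨p, ?_⟩
  unfold Wk cf
  simp only [hD]
  have h4 : ∀ (r s : Fin 4), Pool.Agent.Helper65.XR.GEN.bc r
      (pr (Fin.castLE (by norm_num : 4 ≤ 6) s)).1 * Pool.Agent.Helper65.XR.GEN.bc r
      (pr (Fin.castLE (by norm_num : 4 ≤ 6) s)).2 = if r = s then (1 / 4 : ℝ) else 0 := by
    intro r s
    fin_cases r <;> fin_cases s <;> simp [Pool.Agent.Helper65.XR.GEN.bc, pr, Fin.castLE] <;>
      norm_num
  have h3 : (Matrix.of fun r s : Fin k => Pool.Agent.Helper65.XR.GEN.bc (Fin.castLE hk r)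
      (pr (Fin.castLE (hk.trans (by norm_num : 4 ≤ 6)) s)).1 *
        Pool.Agent.Helper65.XR.GEN.bc (Fin.castLE hk r)
      (pr (Fin.castLE (hk.trans (by norm_num : 4 ≤ 6)) s)).2)
      = Matrix.diagonal (fun _ : Fin k => (1 / 4 : ℝ)) := by
    ext r s
    have h5 := h4 (Fin.castLE hk r) (Fin.castLE hk s)
    simp only [Fin.castLE_castLE] at h5
    rw [Matrix.of_apply, h5]
    by_cases hrs : r = s
    · subst hrs
      simp
    · rw [if_neg (fun h => hrs (Fin.castLE_injective hk h)), Matrix.diagonal_apply_ne _ hrs]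
  rw [h3, Matrix.det_diagonal]
  simp

end Pool.Agent.Helper40.XA
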