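import Pool.Agent.Helper40.XA.Few

set_option autoImplicit false

/-! Few fifth vertices, part 2. -/

namespace Pool.Agent.Helper40.XA

open Finset
open Pool.Agent.Helper65.XR (Pt RI Row D4 ee Mot XI e5 Qf Lf GPos Good oth Bar qv Dl Bad Indep3
  XIndep t_inj XI_to mem_t)
open Pool.Agent.Helper65.XR.GEN (Ix)

/-- the conditions on the six values -/
noncomputable def PhiK {n : ℕ} (p : Fin n → Pt) (A : Fin 4 → Fin n) (k : ℕ)
    (l : Fin k → Fin n) : (Fin 6 → ℝ) →ₗ[ℝ] (Fin k → ℝ) where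
  toFun ρ := fun r => ∑ s, cf p A (l r) s * ρ s
  map_add' a b := by
    funext r
    simp [mul_add, Finset.sum_add_distrib]
  map_smul' c a := by
    funext r
    simp only [Pi.smul_apply, smul_eq_mul, RingHom.id_apply, Finset.mul_sum]
    exact Finset.sum_congr rfl fun s _ => by ring

theorem finrank_PhiK {n : ℕ} (p : Fin n → Pt) (A : Fin 4 → Fin n) (k : ℕ) (hk : k ≤ 4)
    (l : Fin k → Fin n) (hW : Wk A k hk l p ≠ 0) :
    Module.finrank ℝ (LinearMap.ker (PhiK p A k l)) + k = 6 := by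
  classical
  have hsurj : Function.Surjective (PhiK p A k l) := by
    intro y
    unfold Wk at hW
    set N : Matrix (Fin k) (Fin k) ℝ :=
      Matrix.of fun r s : Fin k => cf p A (l r) (Fin.castLE (hk.trans (by norm_num)) s) with hN
    have hu : IsUnit N.det := isUnit_iff_ne_zero.2 hW
    set z : Fin k → ℝ := N⁻¹.mulVec y with hz
    have hNz : N.mulVec z = y := by
      rw [hz, Matrix.mulVec_mulVec, Matrix.mul_nonsing_inv _ hu, Matrix.one_mulVec]
    refine ⟨fun s => if h : (s : ℕ) < k then z ⟨s, h⟩ else 0, ?_⟩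
    funext r
    show ∑ s : Fin 6, cf p A (l r) s * (if h : (s : ℕ) < k then z ⟨s, h⟩ else 0) = y r
    have h1 := congrFun hNz r
    rw [← h1]
    symm
    show ∑ s : Fin k, N r s * z s = _
    refine Fintype.sum_of_injective (Fin.castLE (hk.trans (by norm_num : 4 ≤ 6)))
      (Fin.castLE_injective _) _ _ ?_ ?_
    · intro s hs
      rw [dif_neg, mul_zero]
      intro h
      exact hs ⟨⟨s, h⟩, Fin.ext rfl⟩
    · intro s
      rw [dif_pos (by simp : ((Fin.castLE (hk.trans (by norm_num : 4 ≤ 6)) s : Fin 6) : ℕ) < k)]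
      rfl
  have h0 := LinearMap.finrank_range_add_finrank_ker (PhiK p A k l)
  rw [LinearMap.range_eq_top.2 hsurj, finrank_top] at h0
  simp only [Module.finrank_fintype_fun_eq_card, Fintype.card_fin] at h0
  omega

theorem pr_surj : ∀ i j : Fin 4, i ≠ j → ∃ s : Fin 6, pr s = (i, j) ∨ pr s = (j, i) := by
  unfold pr
  decide

theorem oth_eq {n : ℕ} (a b c d e : Fin n) :
    oth (![a, b, c, d, e] : Fin 5 → Fin n) 4 = ![a, b, c, d] := by
  funext k
  fin_cases k <;> rfl

/-- a failing fifth vertex gives a condition on the motions -/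
theorem fail_cond {n : ℕ} (H : SimpleGraph (Fin n)) (a b c d e : Fin n) (p : Fin n → Pt)
    (hnd : [a, b, c, d, e].Nodup) (hB : Bad H ![a, b, c, d, e] 4 p) (v : Fin n → Pt)
    (hv : Mot H p v) :
    ∑ s, cf p ![a, b, c, d] e s * ee p v ((![a, b, c, d] : Fin 4 → Fin n) (pr s).1)
      ((![a, b, c, d] : Fin 4 → Fin n) (pr s).2) = 0 := by
  have ht := t_inj a b c d e hnd
  have hcoo := Pool.Agent.Helper65.XR.coo
  have hloc := Pool.Agent.Helper65.XR.loc Pool.Agent.Helper65.XR.bar hcoo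
  have hA : Function.Injective (oth (![a, b, c, d, e] : Fin 5 → Fin n) 4) := fun x y h =>
    Fin.succAbove_right_injective (ht h)
  have hAe : ∀ k, oth (![a, b, c, d, e] : Fin 5 → Fin n) 4 k ≠ e := by
    intro k h
    exact Fin.succAbove_ne 4 k (ht h)
  obtain ⟨x, hx⟩ := (hcoo n p _ hA hB.gpos).1 (p ((![a, b, c, d, e] : Fin 5 → Fin n) 4))
  have hq := (hloc n H _ 4 p ht hB x hx v hv).1
  have hD := ((hcoo n p _ hA hB.gpos).2.1 e x hAe hx).2
  rw [oth_eq] at hq hD
  generalize hAA : (![a, b, c, d] : Fin 4 → Fin n) = A at *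
  have hs : ∀ i j, ee p v (A i) (A j) = ee p v (A j) (A i) := fun i j =>
    Pool.Agent.Helper65.XR.badm_ee_symm _ _ _ _
  have hi : ∀ i, ee p v (A i) (A i) = 0 := fun i =>
    Pool.Agent.Helper65.XR.badm_ee_self _ _ _
  unfold qv at hq
  unfold cf pr
  simp only [Fin.sum_univ_four] at hq
  simp only [Fin.sum_univ_six, Matrix.cons_val_zero, Matrix.cons_val_one, Matrix.cons_val_two,
    Matrix.head_cons, Matrix.tail_cons, Matrix.cons_val, hD]
  rw [hs 1 0, hs 2 0, hs 3 0, hs 2 1, hs 3 1, hs 3 2, hi 0, hi 1, hi 2, hi 3] at hq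
  linear_combination (D4 p A ^ 2 / 2) * hq

/-- the main count -/
theorem few {n : ℕ} (G G' : SimpleGraph (Fin n)) (hGG' : G ≤ G') (hG' : ∃ p, RI G' p)
    (a b c d : Fin n) (hab : G.Adj a b) (hcd : G.Adj c d)
    (F : Finset (Fin n × Fin n)) (hF : ∀ q ∈ F, q.1 < q.2 ∧
      q.1 ∈ ({a, b, c, d} : Finset (Fin n)) ∧ q.2 ∈ ({a, b, c, d} : Finset (Fin n)) ∧
      G'.Adj q.1 q.2 ∧ ¬ G.Adj q.1 q.2) (hF1 : 1 ≤ F.card)
    (S : Finset (Fin n)) (hS : ∀ e ∈ S, [a, b, c, d, e].Nodup ∧ ¬ XIndep G a b c d e)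
    (hSne : S.Nonempty) : S.card + F.card ≤ 4 := by
  classical
  by_contra hcon
  push Not at hcon
  obtain ⟨e0, he0⟩ := hSne
  have hnd4 : a ≠ b ∧ a ≠ c ∧ a ≠ d ∧ b ≠ c ∧ b ≠ d ∧ c ≠ d := by
    have hnd := (hS e0 he0).1
    simp only [List.nodup_cons, List.mem_cons, List.not_mem_nil, or_false, not_or,
      List.nodup_nil, and_true] at hnd
    obtain ⟨⟨h1, h2, h3, _⟩, ⟨h4, h5, _⟩, ⟨h6, _⟩, _, -⟩ := hnd
    exact ⟨h1, h2, h3, h4, h5, h6⟩
  obtain ⟨nab, nac, nad, nbc, nbd, ncd⟩ := hnd4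
  set A : Fin 4 → Fin n := ![a, b, c, d] with hA
  have hAinj : Function.Injective A := by
    intro i j hij
    have ht := t_inj a b c d e0 (hS e0 he0).1
    have h2 : ∀ k : Fin 4, (![a, b, c, d, e0] : Fin 5 → Fin n) k.castSucc = A k := by
      intro k
      fin_cases k <;> rfl
    exact Fin.castSucc_injective _ (ht (by rw [h2, h2]; exact hij))
  set H : SimpleGraph (Fin n) := G.deleteEdges {s(a, b), s(c, d)} with hHdef
  have hHadj : ∀ u v, H.Adj u v ↔ G.Adj u v ∧ s(u, v) ≠ s(a, b) ∧ s(u, v) ≠ s(c, d) := by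
    intro u v
    rw [hHdef, SimpleGraph.deleteEdges_adj]
    simp only [Set.mem_insert_iff, Set.mem_singleton_iff, not_or, ne_eq]
  have hHG : H ≤ G := fun u v huv => ((hHadj u v).1 huv).1
  have n01 : ¬ H.Adj a b := fun hc => ((hHadj _ _).1 hc).2.1 rfl
  have n23 : ¬ H.Adj c d := fun hc => ((hHadj _ _).1 hc).2.2 rfl
  -- a subset of `S`
  obtain ⟨S', hS'S, hS'c⟩ := Finset.exists_subset_card_eq
    (show 5 - F.card ≤ S.card by omega)
  obtain ⟨k, hk⟩ : ∃ k, k = 5 - F.card := ⟨_, rfl⟩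
  have hk4 : k ≤ 4 := by omega
  rw [← hk] at hS'c
  let E := S'.equivFinOfCardEq hS'c
  let l : Fin k → Fin n := fun r => ((E.symm r : S') : Fin n)
  have hl : Function.Injective l := fun i j h => E.symm.injective (Subtype.ext h)
  have hlS : ∀ r, l r ∈ S := fun r => hS'S (E.symm r).2
  have hd : ∀ r s, A r ≠ l s := by
    intro r s h
    have ht := t_inj a b c d (l s) (hS _ (hlS s)).1
    have h2 : ∀ k : Fin 4, (![a, b, c, d, l s] : Fin 5 → Fin n) k.castSucc = A k := by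
      intro k
      fin_cases k <;> rfl
    have h3 : (![a, b, c, d, l s] : Fin 5 → Fin n) 4 = l s := rfl
    rw [← h2, ← h3] at h
    have h4 := ht h
    exact absurd h4 (Fin.castSucc_lt_last r).ne
  -- a placement
  obtain ⟨R, hR, hRg⟩ := Pool.Agent.Helper65.XR.gen n G' hG'
  let g1 : (Fin n → Pt) → ℝ := fun p => MvPolynomial.eval (fun a => p a.1 a.2) R
  obtain ⟨p, hp⟩ := exists_common
    ({g1, Wk A k hk4 l} : Finset ((Fin n → Pt) → ℝ)) id (by
    intro g hg
    rcases mem_insert.1 hg with rfl | hg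
    · exact mv_lpf R
    · rw [mem_singleton.1 hg]
      exact Wk_lpf _ _ _ _) (by
    intro g hg
    rcases mem_insert.1 hg with rfl | hg
    · exact Pool.Agent.Helper65.XR.exists_ne R hR
    · rw [mem_singleton.1 hg]
      exact Wk_ne A hAinj k hk4 l hl hd)
  have hgood : Good G' p := hRg p (hp g1 (mem_insert_self _ _))
  have hW : Wk A k hk4 l p ≠ 0 := hp (Wk A k hk4 l) (by simp)
  -- the edges
  have hmemT : ∀ u, u ∈ ({a, b, c, d} : Finset (Fin n)) ↔ ∃ i, A i = u := by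
    intro u
    simp only [mem_insert, mem_singleton]
    constructor
    · rintro (h | h | h | h)
      · exact ⟨0, h.symm⟩
      · exact ⟨1, h.symm⟩
      · exact ⟨2, h.symm⟩
      · exact ⟨3, h.symm⟩
    · rintro ⟨i, rfl⟩
      fin_cases i
      · exact Or.inl rfl
      · exact Or.inr (Or.inl rfl)
      · exact Or.inr (Or.inr (Or.inl rfl))
      · exact Or.inr (Or.inr (Or.inr rfl))
  have key : ∀ u v : Fin n, G.Adj u v → u ∈ ({a, b, c, d} : Finset (Fin n)) →
      v ∈ ({a, b, c, d} : Finset (Fin n)) → ¬ H.Adj u v → ∃ q : Fin n × Fin n,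
      s(q.1, q.2) = s(u, v) ∧ q.1 < q.2 ∧ q.1 ∈ ({a, b, c, d} : Finset (Fin n)) ∧
      q.2 ∈ ({a, b, c, d} : Finset (Fin n)) ∧ G.Adj q.1 q.2 ∧ ¬ H.Adj q.1 q.2 := by
    intro u v huv hu hv hH
    rcases lt_or_gt_of_ne (G.ne_of_adj huv) with hlt | hlt
    · exact ⟨(u, v), rfl, hlt, hu, hv, huv, hH⟩
    · exact ⟨(v, u), Sym2.eq_swap, hlt, hv, hu, huv.symm, fun hc => hH hc.symm⟩
  obtain ⟨q1, q1s, q1a, q1b, q1c, q1d, q1e⟩ := key a b hab (by simp) (by simp) n01
  obtain ⟨q2, q2s, q2a, q2b, q2c, q2d, q2e⟩ := key c d hcd (by simp) (by simp) n23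
  have hq12 : q1 ≠ q2 := by
    intro hc
    rw [hc, q2s] at q1s
    rw [Sym2.eq_iff] at q1s
    rcases q1s with ⟨h1, h2⟩ | ⟨h1, h2⟩
    · exact nac h1.symm
    · exact nbc h1.symm
  have hF1' : q1 ∉ F := fun hc => (hF q1 hc).2.2.2.2 q1d
  have hF2' : q2 ∉ F := fun hc => (hF q2 hc).2.2.2.2 q2d
  set F2 : Finset (Fin n × Fin n) := insert q1 (insert q2 F) with hF2
  have hcard : F2.card = F.card + 2 := by
    rw [hF2, Finset.card_insert_of_notMem, Finset.card_insert_of_notMem hF2']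
    rw [Finset.mem_insert, not_or]
    exact ⟨hq12, hF1'⟩
  have hall : ∀ q ∈ F2, q.1 < q.2 ∧ G'.Adj q.1 q.2 ∧ ¬ H.Adj q.1 q.2 ∧
      q.1 ∈ ({a, b, c, d} : Finset (Fin n)) ∧ q.2 ∈ ({a, b, c, d} : Finset (Fin n)) := by
    intro q hq
    rcases mem_insert.1 hq with h | hq
    · rw [h]; exact ⟨q1a, hGG' q1d, q1e, q1b, q1c⟩
    · rcases mem_insert.1 hq with h | h
      · rw [h]; exact ⟨q2a, hGG' q2d, q2e, q2b, q2c⟩
      · obtain ⟨h1, h2, h3, h4, h5⟩ := hF _ h
        exact ⟨h1, h4, fun hc => h5 (hHG hc), h2, h3⟩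
  -- dual motions
  have hrow := Pool.Agent.Helper65.XR.row_pair
  have hdu := Pool.Agent.Helper65.XR.dual
  have hdual : ∀ q : F2, ∃ u : Fin n → Pt, ee p u (q : Fin n × Fin n).1 (q : Fin n × Fin n).2 = 1 ∧
      ∀ i j, G'.Adj i j → ¬ (s(i, j) = s((q : Fin n × Fin n).1, (q : Fin n × Fin n).2)) →
        ee p u i j = 0 := fun q =>
    Pool.Agent.Helper65.XR.badm_dual hrow hdu G' p hgood.1 _ _ (hall q q.2).2.1
  choose u hu1 hu0 using hdual
  have huM : ∀ q, Mot H p (u q) := fun q =>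
    Pool.Agent.Helper65.XR.badm_mot G' H (hHG.trans hGG') p (u q) _ _ (hall q q.2).2.2.1 (hu0 q)
  let ρ : F2 → (Fin 6 → ℝ) := fun q s => ee p (u q) (A (pr s).1) (A (pr s).2)
  -- a failing vertex
  obtain ⟨q0, hq0⟩ : F.Nonempty := by
    rw [← Finset.card_pos]; omega
  obtain ⟨g1, g2, g3, g4, g5⟩ := hF q0 hq0
  obtain ⟨ix, hix⟩ := (hmemT q0.1).1 g2
  obtain ⟨iy, hiy⟩ := (hmemT q0.2).1 g3
  have hmem : ∀ q, ρ q ∈ LinearMap.ker (PhiK p A k l) := by
    intro q
    rw [LinearMap.mem_ker]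
    funext r
    have hnd := (hS _ (hlS r)).1
    have hXI : ¬ XI H ![a, b, c, d, l r] := fun hh =>
      (hS _ (hlS r)).2 (XI_to G a b c d (l r) hh)
    have hcs : ∀ k : Fin 4, (![a, b, c, d, l r] : Fin 5 → Fin n) k.castSucc = A k := by
      intro k
      fin_cases k <;> rfl
    have hbad := Pool.Agent.Helper65.XR.bad hrow hdu Pool.Agent.Helper65.XR.coo
      (Pool.Agent.Helper65.XR.idt (Pool.Agent.Helper65.XR.ex hrow)) Pool.Agent.Helper65.XR.ta
      n G' H ![a, b, c, d, l r] ix.castSucc iy.castSucc 4 (t_inj a b c d (l r) hnd) (by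
        intro h
        have h1 := Fin.castSucc_injective _ h
        rw [h1, hiy] at hix
        exact (ne_of_lt g1) hix.symm) (hHG.trans hGG') (hGG' hab) (hGG' hcd) n01 n23 (by
        rw [hcs, hcs, hix, hiy]; exact g4) (by
        rw [hcs, hcs, hix, hiy]; exact fun hc => g5 (hHG hc)) (by
        rw [hcs, hcs, hix, hiy]
        intro hc
        apply g5
        rw [← SimpleGraph.mem_edgeSet, hc, SimpleGraph.mem_edgeSet]
        exact hab) (by
        rw [hcs, hcs, hix, hiy]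
        intro hc
        apply g5
        rw [← SimpleGraph.mem_edgeSet, hc, SimpleGraph.mem_edgeSet]
        exact hcd) hXI p hgood
    exact fail_cond H a b c d (l r) p hnd hbad (u q) (huM q)
  have hli : LinearIndependent ℝ ρ := by
    rw [Fintype.linearIndependent_iff]
    intro g hg q'
    obtain ⟨m1, m2, m3, m4, m5⟩ := hall q' q'.2
    obtain ⟨i, hi⟩ := (hmemT _).1 m4
    obtain ⟨j, hj⟩ := (hmemT _).1 m5
    have hij : i ≠ j := by
      rintro rfl
      exact (ne_of_lt m1) (hi.symm.trans hj)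
    obtain ⟨s, hs⟩ := pr_surj i j hij
    have h1 := congrFun hg s
    rw [Finset.sum_apply] at h1
    have h2 : ∀ q : F2, (g q • ρ q) s = if q = q' then g q' else 0 := by
      intro q
      have h3 : ρ q s = ee p (u q) (q' : Fin n × Fin n).1 (q' : Fin n × Fin n).2 := by
        show ee p (u q) (A (pr s).1) (A (pr s).2) = _
        rcases hs with hs | hs
        · rw [hs, hi, hj]
        · rw [hs, hi, hj]
          exact Pool.Agent.Helper65.XR.badm_ee_symm _ _ _ _
      rw [Pi.smul_apply, smul_eq_mul, h3]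
      by_cases hqq : q = q'
      · rw [if_pos hqq, hqq, hu1, mul_one]
      · rw [if_neg hqq, hu0 q _ _ m2, mul_zero]
        intro h
        apply hqq
        rw [Sym2.eq_iff] at h
        have n1 := (hall q q.2).1
        rcases h with ⟨h4, h5⟩ | ⟨h4, h5⟩
        · exact Subtype.ext (Prod.ext h4.symm h5.symm)
        · exfalso
          rw [h4, h5] at m1
          exact lt_asymm m1 n1
    rw [Finset.sum_congr rfl fun q _ => h2 q] at h1
    simpa using h1
  have hli2 : LinearIndependent ℝ (fun q => (⟨ρ q, hmem q⟩ : LinearMap.ker (PhiK p A k l))) :=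
    LinearIndependent.of_comp (LinearMap.ker (PhiK p A k l)).subtype hli
  have h1 := hli2.fintype_card_le_finrank
  have h2 := finrank_PhiK p A k hk4 l hW
  rw [Fintype.card_coe, hcard] at h1
  omega

end Pool.Agent.Helper40.XA
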