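import Pool.Agent.Helper40.XA.Few2

set_option autoImplicit false

/-! Few fifth vertices, part 3. -/

namespace Pool.Agent.Helper40.XA

open Finset
open Pool.Agent.Helper65.XR (Pt RI Row D4 ee Mot XI e5 Qf Lf GPos Good oth Bar qv Dl Bad Indep3
  XIndep t_inj XI_to mem_t)
open Pool.Agent.Helper65.XR.GEN (Ix)

/-- a motion changing a pair allows to add the pair -/
theorem add_RI {n : ℕ} (G : SimpleGraph (Fin n)) (p : Fin n → Pt) (hp : RI G p) (i j : Fin n)
    (hij : i ≠ j) (w : Fin n → Pt) (hw : Mot G p w) (h : ee p w i j ≠ 0) :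
    RI (G ⊔ SimpleGraph.edge i j) p := by
  classical
  have hadj : ∀ u v, (G ⊔ SimpleGraph.edge i j).Adj u v ↔ G.Adj u v ∨ s(u, v) = s(i, j) := by
    intro u v
    rw [SimpleGraph.sup_adj, SimpleGraph.edge_adj, Sym2.eq_iff]
    constructor
    · rintro (h | ⟨h | h, _⟩)
      · exact Or.inl h
      · exact Or.inr (Or.inl h)
      · exact Or.inr (Or.inr h)
    · rintro (h | h)
      · exact Or.inl h
      · refine Or.inr ⟨h, ?_⟩
        rcases h with ⟨rfl, rfl⟩ | ⟨rfl, rfl⟩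
        · exact hij
        · exact hij.symm
  have hr := Pool.Agent.Helper65.XR.row_pair
  have hG' : ¬ G.Adj i j := fun hc => h (hw i j hc)
  unfold RI at hp ⊢
  haveI : Fintype {q : Fin n × Fin n // q.1 < q.2 ∧ (G ⊔ SimpleGraph.edge i j).Adj q.1 q.2} :=
    Fintype.ofFinite _
  haveI : Fintype {q : Fin n × Fin n // q.1 < q.2 ∧ G.Adj q.1 q.2} :=
    Fintype.ofFinite _
  rw [Fintype.linearIndependent_iff] at hp ⊢
  intro g hg
  -- the value at the new pair
  have h0 : ∀ x : {q : Fin n × Fin n // q.1 < q.2 ∧ (G ⊔ SimpleGraph.edge i j).Adj q.1 q.2},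
      ¬ G.Adj x.1.1 x.1.2 → g x = 0 := by
    intro x hx
    have hsx : s(x.1.1, x.1.2) = s(i, j) := ((hadj _ _).1 x.2.2).resolve_left hx
    have h1 : ∑ y, g y * ee p w y.1.1 y.1.2 = 0 := by
      have h2 := congrArg (fun f : Fin n → Pt => ∑ k, (f k) ⬝ᵥ (w k)) hg
      simp only [Finset.sum_apply, Pi.smul_apply, Pi.zero_apply, zero_dotProduct,
        Finset.sum_const_zero] at h2
      rw [← h2]
      symm
      calc ∑ k, (∑ y, g y • Row p y.1.1 y.1.2 k) ⬝ᵥ w k
          = ∑ k, ∑ y, g y * (Row p y.1.1 y.1.2 k ⬝ᵥ w k) := by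
            refine Finset.sum_congr rfl fun k _ => ?_
            rw [sum_dotProduct]
            refine Finset.sum_congr rfl fun y _ => ?_
            rw [smul_dotProduct, smul_eq_mul]
        _ = ∑ y, g y * ∑ k, (Row p y.1.1 y.1.2 k ⬝ᵥ w k) := by
            rw [Finset.sum_comm]
            refine Finset.sum_congr rfl fun y _ => ?_
            rw [Finset.mul_sum]
        _ = ∑ y, g y * ee p w y.1.1 y.1.2 := by
            refine Finset.sum_congr rfl fun y _ => ?_
            rw [hr n p w _ _ (ne_of_lt y.2.1)]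
    rw [Finset.sum_eq_single x] at h1
    · have h3 : ee p w x.1.1 x.1.2 ≠ 0 := by
        rw [Sym2.eq_iff] at hsx
        rcases hsx with ⟨h4, h5⟩ | ⟨h4, h5⟩
        · rw [h4, h5]; exact h
        · rw [h4, h5, Pool.Agent.Helper65.XR.badm_ee_symm]; exact h
      exact (mul_eq_zero.1 h1).resolve_right h3
    · intro y _ hy
      by_cases hyG : G.Adj y.1.1 y.1.2
      · rw [hw _ _ hyG, mul_zero]
      · exfalso
        have hsy : s(y.1.1, y.1.2) = s(i, j) := ((hadj _ _).1 y.2.2).resolve_left hyG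
        rw [← hsx, Sym2.eq_iff] at hsy
        rcases hsy with ⟨h4, h5⟩ | ⟨h4, h5⟩
        · exact hy (Subtype.ext (Prod.ext h4 h5))
        · have h6 := y.2.1
          have h7 := x.2.1
          rw [h4, h5] at h6
          exact lt_asymm h6 h7
    · intro hx'
      exact absurd (Finset.mem_univ _) hx'
  intro x
  by_cases hx : G.Adj x.1.1 x.1.2
  · have h1 := hp (fun y => g ⟨y.1, y.2.1, (hadj _ _).2 (Or.inl y.2.2)⟩) (by
      rw [← hg]
      refine Fintype.sum_of_injective (fun y : {q : Fin n × Fin n // q.1 < q.2 ∧ G.Adj q.1 q.2} =>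
        (⟨y.1, y.2.1, (hadj _ _).2 (Or.inl y.2.2)⟩ :
          {q : Fin n × Fin n // q.1 < q.2 ∧ (G ⊔ SimpleGraph.edge i j).Adj q.1 q.2})) ?_ _ _ ?_ ?_
      · intro y z hyz
        exact Subtype.ext (congrArg (fun t => (t : _).1) hyz)
      · intro y hy
        rw [h0 y, zero_smul]
        intro hc
        exact hy ⟨⟨y.1, y.2.1, hc⟩, rfl⟩
      · intro y
        rfl) ⟨x.1, x.2.1, hx⟩
    exact h1
  · exact h0 x hx

/-- if the four end points are rigid then a flexible fifth vertex never fails -/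
theorem rigid_four {n : ℕ} (G : SimpleGraph (Fin n)) (a b c d e : Fin n)
    (hnd : [a, b, c, d, e].Nodup) (hab : G.Adj a b) (hcd : G.Adj c d) (x y : Fin n)
    (hx : x ∈ ({a, b, c, d, e} : Finset (Fin n))) (hy : y ∈ ({a, b, c, d, e} : Finset (Fin n)))
    (hxy : x ≠ y) (hGxy : ¬ G.Adj x y) (hI : ∃ p, RI (G ⊔ SimpleGraph.edge x y) p)
    (hr : ∀ i ∈ ({a, b, c, d} : Finset (Fin n)), ∀ j ∈ ({a, b, c, d} : Finset (Fin n)), i ≠ j →
      ¬ G.Adj i j → ¬ ∃ p, RI (G ⊔ SimpleGraph.edge i j) p) : XIndep G a b c d e := by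
  classical
  by_contra hX
  set H : SimpleGraph (Fin n) := G.deleteEdges {s(a, b), s(c, d)} with hHdef
  have hHadj : ∀ u v, H.Adj u v ↔ G.Adj u v ∧ s(u, v) ≠ s(a, b) ∧ s(u, v) ≠ s(c, d) := by
    intro u v
    rw [hHdef, SimpleGraph.deleteEdges_adj]
    simp only [Set.mem_insert_iff, Set.mem_singleton_iff, not_or, ne_eq]
  have hHG : H ≤ G := fun u v huv => ((hHadj u v).1 huv).1
  have n01 : ¬ H.Adj a b := fun hc => ((hHadj _ _).1 hc).2.1 rfl
  have n23 : ¬ H.Adj c d := fun hc => ((hHadj _ _).1 hc).2.2 rfl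
  have hXI : ¬ XI H ![a, b, c, d, e] := fun hh => hX (XI_to G a b c d e hh)
  set G2 : SimpleGraph (Fin n) := G ⊔ SimpleGraph.edge x y with hG2
  have hGG2 : G ≤ G2 := le_sup_left
  have hadd : G2.Adj x y := by
    rw [hG2, SimpleGraph.sup_adj, SimpleGraph.edge_adj]
    exact Or.inr ⟨Or.inl ⟨rfl, rfl⟩, hxy⟩
  obtain ⟨R, hR, hRg⟩ := Pool.Agent.Helper65.XR.gen n G2 hI
  obtain ⟨p, hp⟩ := Pool.Agent.Helper65.XR.exists_ne R hR
  have hgood : Good G2 p := hRg p hp
  have hmem : ∀ u, u ∈ ({a, b, c, d, e} : Finset (Fin n)) → ∃ i : Fin 5,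
      (![a, b, c, d, e] : Fin 5 → Fin n) i = u := by
    intro u hu
    simp only [mem_insert, mem_singleton] at hu
    rcases hu with h | h | h | h | h
    · exact ⟨0, h.symm⟩
    · exact ⟨1, h.symm⟩
    · exact ⟨2, h.symm⟩
    · exact ⟨3, h.symm⟩
    · exact ⟨4, h.symm⟩
  obtain ⟨ix, hix⟩ := hmem x hx
  obtain ⟨iy, hiy⟩ := hmem y hy
  have ht := t_inj a b c d e hnd
  have hrow := Pool.Agent.Helper65.XR.row_pair
  have hdu := Pool.Agent.Helper65.XR.dual
  have hcoo := Pool.Agent.Helper65.XR.coo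
  have hne1 : ¬ s(x, y) = s(a, b) := by
    intro hc
    apply hGxy
    rw [← SimpleGraph.mem_edgeSet, hc, SimpleGraph.mem_edgeSet]
    exact hab
  have hne2 : ¬ s(x, y) = s(c, d) := by
    intro hc
    apply hGxy
    rw [← SimpleGraph.mem_edgeSet, hc, SimpleGraph.mem_edgeSet]
    exact hcd
  have hbad := Pool.Agent.Helper65.XR.bad hrow hdu hcoo
    (Pool.Agent.Helper65.XR.idt (Pool.Agent.Helper65.XR.ex hrow)) Pool.Agent.Helper65.XR.ta
    n G2 H ![a, b, c, d, e] ix iy 4 ht (by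
      intro h
      rw [h, hiy] at hix
      exact hxy hix.symm) (hHG.trans hGG2) (hGG2 hab) (hGG2 hcd) n01 n23 (by
      rw [hix, hiy]; exact hadd) (by
      rw [hix, hiy]; exact fun hc => hGxy (hHG hc)) (by
      rw [hix, hiy]; exact hne1) (by
      rw [hix, hiy]; exact hne2) hXI p hgood
  -- the dual motion
  obtain ⟨w, hw1, hw0⟩ := Pool.Agent.Helper65.XR.badm_dual hrow hdu G2 p hgood.1 x y hadd
  have hwG : Mot G p w := Pool.Agent.Helper65.XR.badm_mot G2 G hGG2 p w x y hGxy hw0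
  have hwH : Mot H p w := fun i j hij => hwG i j (hHG hij)
  have hRIG : RI G p := Pool.Agent.Helper65.XR.badm_RI_mono G2 G hGG2 p hgood.1
  have hself : ∀ i, ee p w i i = 0 := fun i => Pool.Agent.Helper65.XR.badm_ee_self p w i
  have hsymm : ∀ i j, ee p w i j = ee p w j i := fun i j =>
    Pool.Agent.Helper65.XR.badm_ee_symm p w i j
  have hT : ∀ i ∈ ({a, b, c, d} : Finset (Fin n)), ∀ j ∈ ({a, b, c, d} : Finset (Fin n)),
      ee p w i j = 0 := by
    intro i hi j hj
    by_cases hij : i = j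
    · rw [hij]; exact hself j
    · by_cases hG : G.Adj i j
      · exact hwG i j hG
      · by_contra hne
        exact hr i hi j hj hij hG ⟨p, add_RI G p hRIG i j hij w hwG hne⟩
  have hA : Function.Injective (oth (![a, b, c, d, e] : Fin 5 → Fin n) 4) := fun x y h =>
    Fin.succAbove_right_injective (ht h)
  obtain ⟨xx, hxx⟩ := (hcoo n p _ hA hbad.gpos).1 (p ((![a, b, c, d, e] : Fin 5 → Fin n) 4))
  have htyp := (hbad.typA xx hxx w hwH).1
  rw [oth_eq] at htyp
  have h4 : (![a, b, c, d, e] : Fin 5 → Fin n) 4 = e := rfl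
  rw [h4] at htyp
  have hAm : ∀ m, (![a, b, c, d] : Fin 4 → Fin n) m ∈ ({a, b, c, d} : Finset (Fin n)) := by
    intro m
    fin_cases m <;> simp
  have hE : ∀ i ∈ ({a, b, c, d} : Finset (Fin n)), ee p w e i = 0 := by
    intro i hi
    have hi' : ∃ m, (![a, b, c, d] : Fin 4 → Fin n) m = i := by
      simp only [mem_insert, mem_singleton] at hi
      rcases hi with h | h | h | h
      · exact ⟨0, h.symm⟩
      · exact ⟨1, h.symm⟩
      · exact ⟨2, h.symm⟩
      · exact ⟨3, h.symm⟩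
    obtain ⟨m, rfl⟩ := hi'
    rw [htyp m]
    unfold Dl
    refine Finset.sum_eq_zero fun k _ => ?_
    rw [hT _ (hAm k) _ (hAm m), mul_zero]
  have hsplit : ∀ u, u ∈ ({a, b, c, d, e} : Finset (Fin n)) →
      u ∈ ({a, b, c, d} : Finset (Fin n)) ∨ u = e := by
    intro u hu
    simp only [mem_insert, mem_singleton] at hu ⊢
    tauto
  have hfin : ee p w x y = 0 := by
    rcases hsplit x hx with h1 | h1 <;> rcases hsplit y hy with h2 | h2
    · exact hT x h1 y h2
    · rw [h2, hsymm]; exact hE x h1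
    · rw [h1]; exact hE y h2
    · exact absurd (h1.trans h2.symm) hxy
  rw [hw1] at hfin
  exact one_ne_zero hfin

end Pool.Agent.Helper40.XA
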