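import Pool.Agent.Helper40.XA.Few3

set_option autoImplicit false

/-! Few fifth vertices, part 4. -/

namespace Pool.Agent.Helper40.XA

open Finset
open Pool.Agent.Helper65.XR (Pt RI XIndep)

/-- `k` missing pairs of `T` can be added together. -/
def AddsK {n : ℕ} (G : SimpleGraph (Fin n)) (T : Finset (Fin n)) (k : ℕ) : Prop :=
  ∃ G' : SimpleGraph (Fin n), G ≤ G' ∧ (∃ p, RI G' p) ∧ ∃ F : Finset (Fin n × Fin n),
    F.card = k ∧ ∀ q ∈ F, q.1 < q.2 ∧ q.1 ∈ T ∧ q.2 ∈ T ∧ G'.Adj q.1 q.2 ∧ ¬ G.Adj q.1 q.2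

theorem addsK_one {n : ℕ} (G : SimpleGraph (Fin n)) (T : Finset (Fin n)) (h : AddsK G T 1) :
    ∃ x ∈ T, ∃ y ∈ T, x ≠ y ∧ ¬ G.Adj x y ∧ ∃ p, RI (G ⊔ SimpleGraph.edge x y) p := by
  classical
  obtain ⟨G', hG, ⟨p, hp⟩, F, hF, h⟩ := h
  obtain ⟨q, hq⟩ := Finset.card_eq_one.1 hF
  obtain ⟨h1, h2, h3, h4, h5⟩ := h q (by rw [hq]; exact mem_singleton_self q)
  refine ⟨q.1, h2, q.2, h3, ne_of_lt h1, h5, p, ?_⟩
  refine Pool.Agent.Helper65.XR.badm_RI_mono G' _ (sup_le hG ?_) p hp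
  intro u v huv
  rw [SimpleGraph.edge_adj] at huv
  rcases huv with ⟨⟨rfl, rfl⟩ | ⟨rfl, rfl⟩, _⟩
  · exact h4
  · exact h4.symm

theorem addsK_one' {n : ℕ} (G : SimpleGraph (Fin n)) (T : Finset (Fin n)) (x y : Fin n)
    (hx : x ∈ T) (hy : y ∈ T) (hxy : x ≠ y) (hG : ¬ G.Adj x y)
    (h : ∃ p, RI (G ⊔ SimpleGraph.edge x y) p) : AddsK G T 1 := by
  classical
  have hadd : (G ⊔ SimpleGraph.edge x y).Adj x y := by
    rw [SimpleGraph.sup_adj, SimpleGraph.edge_adj]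
    exact Or.inr ⟨Or.inl ⟨rfl, rfl⟩, hxy⟩
  refine ⟨G ⊔ SimpleGraph.edge x y, le_sup_left, h, ?_⟩
  rcases lt_or_gt_of_ne hxy with hlt | hlt
  · refine ⟨{(x, y)}, Finset.card_singleton _, fun q hq => ?_⟩
    rw [mem_singleton.1 hq]
    exact ⟨hlt, hx, hy, hadd, hG⟩
  · refine ⟨{(y, x)}, Finset.card_singleton _, fun q hq => ?_⟩
    rw [mem_singleton.1 hq]
    exact ⟨hlt, hy, hx, hadd.symm, fun hc => hG hc.symm⟩

theorem few_all {n : ℕ} (G : SimpleGraph (Fin n)) (a b c d : Fin n) (hab : G.Adj a b)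
    (hcd : G.Adj c d) (r : ℕ) (hr : IsGreatest {k | AddsK G {a, b, c, d} k} r) :
    Nat.card {e : Fin n // [a, b, c, d, e].Nodup ∧ AddsK G {a, b, c, d, e} 1 ∧
      ¬ XIndep G a b c d e} ≤ if r = 0 then 0 else 4 - r := by
  classical
  obtain ⟨S, hS⟩ : ∃ S : Finset (Fin n), S = univ.filter (fun e => [a, b, c, d, e].Nodup ∧
    AddsK G {a, b, c, d, e} 1 ∧ ¬ XIndep G a b c d e) := ⟨_, rfl⟩
  have hc : Nat.card {e : Fin n // [a, b, c, d, e].Nodup ∧ AddsK G {a, b, c, d, e} 1 ∧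
      ¬ XIndep G a b c d e} = S.card := by
    rw [hS, Nat.card_eq_fintype_card, Fintype.card_subtype]
  have hmem : ∀ e ∈ S, [a, b, c, d, e].Nodup ∧ AddsK G {a, b, c, d, e} 1 ∧
      ¬ XIndep G a b c d e := by
    intro e he
    rw [hS] at he
    exact (mem_filter.1 he).2
  rw [hc]
  rcases S.eq_empty_or_nonempty with h0 | hne
  · rw [h0]; simp
  by_cases hr0 : r = 0
  · exfalso
    obtain ⟨e, he⟩ := hne
    obtain ⟨h1, h2, h3⟩ := hmem e he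
    obtain ⟨x, hx, y, hy, hxy, hG, hI⟩ := addsK_one G _ h2
    apply h3
    refine rigid_four G a b c d e h1 hab hcd x y hx hy hxy hG hI ?_
    intro i hi j hj hij hGij hI'
    have h4 := hr.2 (show 1 ∈ {k | AddsK G {a, b, c, d} k} from
      addsK_one' G _ i j hi hj hij hGij hI')
    omega
  · rw [if_neg hr0]
    obtain ⟨G', hGG', hI, F, hF, hFp⟩ := hr.1
    have h1 := few G G' hGG' hI a b c d hab hcd F (fun q hq => by
      obtain ⟨h1, h2, h3, h4, h5⟩ := hFp q hq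
      exact ⟨h1, h2, h3, h4, h5⟩) (by omega) S (fun e he => ⟨(hmem e he).1, (hmem e he).2.2⟩) hne
    omega

end Pool.Agent.Helper40.XA
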