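import Pool.Agent.Helper40.XA.Cnt

set_option autoImplicit false

/-! The count `e(W) ≤ 3 |W| - 6`. -/

namespace Pool.Agent.Helper40.XA

open Finset
open Pool.Agent.Helper65.XR (Pt RI Row D4 ee Mot XI e5 Qf Lf GPos Good)
open Pool.Agent.Helper65.XR.GEN (Ix)

/-- total force and total moment -/
noncomputable def tau {n : ℕ} (p : Fin n → Pt) (W : Finset (Fin n)) :
    ({k // k ∈ W} → Pt) →ₗ[ℝ] (Pt × Pt) where
  toFun f := (∑ k : {k // k ∈ W}, f k, ∑ k : {k // k ∈ W}, crossProduct (p k) (f k))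
  map_add' a b := by
    ext : 1
    · simp [Finset.sum_add_distrib]
    · simp [Finset.sum_add_distrib]
  map_smul' c a := by
    ext : 1
    · simp [Finset.smul_sum]
    · simp [Finset.smul_sum]

theorem tau_surj {n : ℕ} (p : Fin n → Pt) (W : Finset (Fin n)) (a b c : Fin n) (ha : a ∈ W)
    (hb : b ∈ W) (hc : c ∈ W) (hab : a ≠ b) (hac : a ≠ c) (hbc : b ≠ c)
    (hd : det2 p a b c ≠ 0) : Function.Surjective (tau p W) := by
  classical
  rintro ⟨F, M⟩
  unfold det2 at hd
  obtain ⟨x1, hx1⟩ : ∃ x1, x1 = p b 0 - p a 0 := ⟨_, rfl⟩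
  obtain ⟨y1, hy1⟩ : ∃ y1, y1 = p b 1 - p a 1 := ⟨_, rfl⟩
  obtain ⟨z1, hz1⟩ : ∃ z1, z1 = p b 2 - p a 2 := ⟨_, rfl⟩
  obtain ⟨x2, hx2⟩ : ∃ x2, x2 = p c 0 - p a 0 := ⟨_, rfl⟩
  obtain ⟨y2, hy2⟩ : ∃ y2, y2 = p c 1 - p a 1 := ⟨_, rfl⟩
  rw [← hx1, ← hy1, ← hx2, ← hy2] at hd
  -- the moment to be produced
  obtain ⟨m, hm⟩ : ∃ m : Pt, m = M - crossProduct (p a) F := ⟨_, rfl⟩
  have hq : x1 ^ 2 + y1 ^ 2 ≠ 0 := by
    intro h
    apply hd
    have h1 : x1 = 0 := by nlinarith [sq_nonneg x1, sq_nonneg y1]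
    have h2 : y1 = 0 := by nlinarith [sq_nonneg x1, sq_nonneg y1]
    rw [h1, h2]
    ring
  obtain ⟨f1, hf1⟩ : ∃ f1, f1 = -(m 2 * y1) / (x1 ^ 2 + y1 ^ 2) := ⟨_, rfl⟩
  obtain ⟨f2, hf2⟩ : ∃ f2, f2 = m 2 * x1 / (x1 ^ 2 + y1 ^ 2) := ⟨_, rfl⟩
  have e3 : x1 * f2 - y1 * f1 = m 2 := by
    rw [hf1, hf2]
    field_simp
    ring
  obtain ⟨f3, g3, e1, e2⟩ : ∃ f3 g3 : ℝ, y1 * f3 + y2 * g3 = m 0 + z1 * f2 ∧
      -(x1 * f3) - x2 * g3 = m 1 - z1 * f1 := by
    refine ⟨-((m 0 + z1 * f2) * x2 + (m 1 - z1 * f1) * y2) / (x1 * y2 - y1 * x2),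
      ((m 0 + z1 * f2) * x1 + (m 1 - z1 * f1) * y1) / (x1 * y2 - y1 * x2), ?_, ?_⟩
    · rw [← mul_div_assoc, ← mul_div_assoc, ← add_div, div_eq_iff hd]
      ring
    · rw [← mul_div_assoc, ← mul_div_assoc, ← neg_div, ← sub_div, div_eq_iff hd]
      ring
  obtain ⟨fb, hfb⟩ : ∃ fb : Pt, fb = ![f1, f2, f3] := ⟨_, rfl⟩
  obtain ⟨fc, hfc⟩ : ∃ fc : Pt, fc = ![0, 0, g3] := ⟨_, rfl⟩
  refine ⟨fun k => if (k : Fin n) = a then F - fb - fc else if (k : Fin n) = b then fb
    else if (k : Fin n) = c then fc else 0, ?_⟩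
  have hsum : ∀ {A : Type} [AddCommMonoid A] (g : Fin n → Pt → A), (∀ k, g k 0 = 0) →
      ∑ k : {k // k ∈ W}, g k (if (k : Fin n) = a then F - fb - fc
        else if (k : Fin n) = b then fb else if (k : Fin n) = c then fc else 0)
      = g a (F - fb - fc) + g b fb + g c fc := by
    intro A _ g hg
    have h1 : ∀ k : {k // k ∈ W}, g k (if (k : Fin n) = a then F - fb - fc
        else if (k : Fin n) = b then fb else if (k : Fin n) = c then fc else 0)
        = (if k = (⟨a, ha⟩ : {k // k ∈ W}) then g a (F - fb - fc) else 0)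
          + (if k = (⟨b, hb⟩ : {k // k ∈ W}) then g b fb else 0)
          + (if k = (⟨c, hc⟩ : {k // k ∈ W}) then g c fc else 0) := by
      intro k
      have ea : (k = (⟨a, ha⟩ : {k // k ∈ W})) ↔ (k : Fin n) = a := Subtype.ext_iff
      have eb : (k = (⟨b, hb⟩ : {k // k ∈ W})) ↔ (k : Fin n) = b := Subtype.ext_iff
      have ec : (k = (⟨c, hc⟩ : {k // k ∈ W})) ↔ (k : Fin n) = c := Subtype.ext_iff
      simp only [ea, eb, ec]
      by_cases h1 : (k : Fin n) = a
      · rw [if_pos h1, if_pos h1, if_neg (fun h => hab (h1.symm.trans h)),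
          if_neg (fun h => hac (h1.symm.trans h)), h1, add_zero, add_zero]
      · by_cases h2 : (k : Fin n) = b
        · rw [if_neg h1, if_pos h2, if_neg h1, if_pos h2,
            if_neg (fun h => hbc (h2.symm.trans h)), h2, zero_add, add_zero]
        · by_cases h3 : (k : Fin n) = c
          · rw [if_neg h1, if_neg h2, if_pos h3, if_neg h1, if_neg h2, if_pos h3, h3, zero_add,
              zero_add]
          · rw [if_neg h1, if_neg h2, if_neg h3, if_neg h1, if_neg h2, if_neg h3, hg, zero_add,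
              zero_add]
    rw [Finset.sum_congr rfl fun k _ => h1 k, Finset.sum_add_distrib, Finset.sum_add_distrib]
    simp
  show (∑ k : {k // k ∈ W}, (if (k : Fin n) = a then F - fb - fc
        else if (k : Fin n) = b then fb else if (k : Fin n) = c then fc else (0 : Pt)),
      ∑ k : {k // k ∈ W}, crossProduct (p k) (if (k : Fin n) = a then F - fb - fc
        else if (k : Fin n) = b then fb else if (k : Fin n) = c then fc else 0)) = (F, M)
  rw [hsum (fun _ f => f) (fun _ => rfl), hsum (fun k f => crossProduct (p k) f)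
    (fun k => map_zero _)]
  have hM : M = m + crossProduct (p a) F := by rw [hm]; abel
  ext : 1
  · simp only
    abel
  · simp only
    rw [hM, map_sub, map_sub]
    have key : crossProduct (p b) fb - crossProduct (p a) fb
        + (crossProduct (p c) fc - crossProduct (p a) fc) = m := by
      rw [← LinearMap.sub_apply, ← LinearMap.sub_apply, ← map_sub, ← map_sub, hfb, hfc]
      rw [cross_apply, cross_apply]
      funext r
      fin_cases r
      · simp only [Pi.add_apply, Pi.sub_apply, Fin.zero_eta, Fin.isValue, Matrix.cons_val_zero,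
          Matrix.cons_val_one, Matrix.cons_val]
        rw [← hy1, ← hz1, ← hy2]
        linarith
      · simp only [Pi.add_apply, Pi.sub_apply, Fin.mk_one, Fin.isValue, Matrix.cons_val_zero,
          Matrix.cons_val_one, Matrix.cons_val]
        rw [← hx1, ← hz1, ← hx2]
        linarith
      · simp only [Pi.add_apply, Pi.sub_apply, Fin.reduceFinMk, Fin.isValue,
          Matrix.cons_val_zero, Matrix.cons_val_one, Matrix.cons_val]
        rw [← hx1, ← hy1]
        linarith
    rw [← key]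
    abel

/-- the rank bound -/
theorem maxwell {n : ℕ} (G : SimpleGraph (Fin n)) (p : Fin n → Pt) (hRI : RI G p)
    (W : Finset (Fin n)) (a b c : Fin n) (ha : a ∈ W) (hb : b ∈ W) (hc : c ∈ W)
    (hab : a ≠ b) (hac : a ≠ c) (hbc : b ≠ c) (hd : det2 p a b c ≠ 0) :
    Nat.card {x : Ix G // x.1.1 ∈ W ∧ x.1.2 ∈ W} + 6 ≤ 3 * W.card := by
  classical
  have hF : Fintype {x : Ix G // x.1.1 ∈ W ∧ x.1.2 ∈ W} := Fintype.ofFinite _
  have h0 := LinearMap.finrank_range_add_finrank_ker (tau p W)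
  rw [LinearMap.range_eq_top.2 (tau_surj p W a b c ha hb hc hab hac hbc hd), finrank_top] at h0
  have e1 : Module.finrank ℝ (Pt × Pt) = 6 := by simp
  have e2 : Module.finrank ℝ ({k // k ∈ W} → Pt) = 3 * W.card := by
    rw [Module.finrank_pi_fintype]
    simp
    ring
  rw [e1, e2] at h0
  let rw' : {x : Ix G // x.1.1 ∈ W ∧ x.1.2 ∈ W} → ({k // k ∈ W} → Pt) :=
    fun x k => Row p x.1.1.1 x.1.1.2 k
  have hli : LinearIndependent ℝ rw' := by
    rw [Fintype.linearIndependent_iff]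
    intro g hg
    have h1 := hRI.comp (fun x : {x : Ix G // x.1.1 ∈ W ∧ x.1.2 ∈ W} => x.1)
      Subtype.val_injective
    rw [Fintype.linearIndependent_iff] at h1
    apply h1 g
    funext k
    rw [Finset.sum_apply]
    by_cases hk : k ∈ W
    · have h2 := congrFun hg ⟨k, hk⟩
      rw [Finset.sum_apply] at h2
      exact h2
    · refine Finset.sum_eq_zero fun x _ => ?_
      show g x • Row p x.1.1.1 x.1.1.2 k = 0
      unfold Row
      rw [if_neg (fun h => hk (by rw [h]; exact x.2.1)),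
        if_neg (fun h => hk (by rw [h]; exact x.2.2)), smul_zero]
  have hmem : ∀ x, rw' x ∈ LinearMap.ker (tau p W) := by
    intro x
    rw [LinearMap.mem_ker]
    have hne : x.1.1.1 ≠ x.1.1.2 := ne_of_lt x.1.2.1
    have hsum : ∀ (g : Fin n → Pt → Pt), (∀ k, g k 0 = 0) →
        ∑ k : {k // k ∈ W}, g k (rw' x k)
        = g x.1.1.1 (p x.1.1.1 - p x.1.1.2) + g x.1.1.2 (p x.1.1.2 - p x.1.1.1) := by
      intro g hg
      have h1 : ∀ k : {k // k ∈ W}, g k (rw' x k)
          = (if k = (⟨x.1.1.1, x.2.1⟩ : {k // k ∈ W}) then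
              g x.1.1.1 (p x.1.1.1 - p x.1.1.2) else 0)
            + (if k = (⟨x.1.1.2, x.2.2⟩ : {k // k ∈ W}) then
              g x.1.1.2 (p x.1.1.2 - p x.1.1.1) else 0) := by
        intro k
        have ea : (k = (⟨x.1.1.1, x.2.1⟩ : {k // k ∈ W})) ↔ (k : Fin n) = x.1.1.1 :=
          Subtype.ext_iff
        have eb : (k = (⟨x.1.1.2, x.2.2⟩ : {k // k ∈ W})) ↔ (k : Fin n) = x.1.1.2 :=
          Subtype.ext_iff
        simp only [ea, eb]
        show g k (Row p x.1.1.1 x.1.1.2 k) = _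
        unfold Row
        by_cases h1 : (k : Fin n) = x.1.1.1
        · rw [if_pos h1, if_pos h1, if_neg (fun h => hne (h1.symm.trans h)), h1, add_zero]
        · by_cases h2 : (k : Fin n) = x.1.1.2
          · rw [if_neg h1, if_pos h2, if_neg h1, if_pos h2, h2, zero_add]
          · rw [if_neg h1, if_neg h2, if_neg h1, if_neg h2, hg, add_zero]
      rw [Finset.sum_congr rfl fun k _ => h1 k, Finset.sum_add_distrib]
      simp
    show (∑ k : {k // k ∈ W}, rw' x k, ∑ k : {k // k ∈ W}, crossProduct (p k) (rw' x k)) = 0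
    rw [hsum (fun _ f => f) (fun _ => rfl), hsum (fun k f => crossProduct (p k) f)
      (fun k => map_zero _)]
    rw [Prod.mk_eq_zero]
    constructor
    · abel
    · simp only [map_sub, cross_self]
      rw [← cross_anticomm (p x.1.1.1) (p x.1.1.2)]
      abel
  have hli2 : LinearIndependent ℝ (fun x => (⟨rw' x, hmem x⟩ : LinearMap.ker (tau p W))) :=
    LinearIndependent.of_comp (LinearMap.ker (tau p W)).subtype hli
  have h1 := hli2.fintype_card_le_finrank
  rw [Nat.card_eq_fintype_card]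
  omega

end Pool.Agent.Helper40.XA
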