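import Pool.Agent.Helper40.XA.Poly

set_option autoImplicit false

/-! Perturbation inside the set of placements with four coplanar points. -/

namespace Pool.Agent.Helper40.XA

open Finset
open Pool.Agent.Helper65.XR (Pt RI Row D4 ee Mot XI e5 Qf Lf GPos Good)

/-- the target placement -/
noncomputable def tg {n : ℕ} (a b c d e : Fin n) (j : Fin n) : Pt :=
  if j = a then ![1, 0, 0] else if j = b then ![-1, 0, 0] else if j = c then ![0, 1, 0]
  else if j = d then ![0, -1, 0] else if j = e then ![0, 0, 1] else 0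

theorem cop_pert {n : ℕ} (G : SimpleGraph (Fin n)) (a b c d e : Fin n)
    (hnd : [a, b, c, d, e].Nodup) (p0 : Fin n → Pt) (hRI : RI G p0)
    (h0 : D4 p0 ![a, b, c, d] = 0) :
    ∃ (p : Fin n → Pt) (α : Fin 4 → ℝ), RI G p ∧ (∀ k, α k ≠ 0) ∧ ∑ k, α k = 0 ∧
      ∑ k, α k • p ((![a, b, c, d] : Fin 4 → Fin n) k) = 0 ∧ α 0 + α 1 ≠ 0 ∧
      D4 p ![a, b, c, e] ≠ 0 := by
  classical
  simp only [List.nodup_cons, List.mem_cons, List.not_mem_nil, or_false, not_or,
    List.nodup_nil, and_true] at hnd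
  obtain ⟨⟨hab, hac, had, hae⟩, ⟨hbc, hbd, hbe⟩, ⟨hcd, hce⟩, hde, -⟩ := hnd
  obtain ⟨β, hβ, hβs, hβp⟩ := aff_dep p0 _ h0
  obtain ⟨k0, hk0⟩ := Function.ne_iff.1 hβ
  have hk0' : β k0 ≠ 0 := hk0
  set T : Fin 4 → Fin n := ![a, b, c, d] with hT
  have hTinj : ∀ k k', T k = T k' → k = k' := by
    intro k k' h
    fin_cases k <;> fin_cases k' <;> simp_all [eq_comm]
  set w : Fin 4 → ℝ := ![1, 1, -1, -1] with hw
  have hwk : w k0 * w k0 = 1 := by
    fin_cases k0 <;> simp [hw]
  set α1 : Fin 4 → ℝ := fun k => -(w k0) * w k with hα1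
  set β' : Fin 4 → ℝ := fun k => -(β k / β k0) with hβ'
  set α : ℝ → Fin 4 → ℝ := fun τ k => (1 - τ) * β' k + τ * α1 k with hα
  set p1 : Fin n → Pt := tg a b c d e with hp1
  set base : ℝ → Fin n → Pt := fun τ j r => (1 - τ) * p0 j r + τ * p1 j r with hbase
  set q : ℝ → Fin n → Pt := fun τ j r => if j = T k0 then
    ∑ k ∈ univ.erase k0, α τ k * base τ (T k) r else base τ j r with hq
  have pa : p1 a = ![1, 0, 0] := by simp [hp1, tg]
  have pb : p1 b = ![-1, 0, 0] := by simp [hp1, tg, Ne.symm hab]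
  have pc : p1 c = ![0, 1, 0] := by simp [hp1, tg, Ne.symm hac, Ne.symm hbc]
  have pd : p1 d = ![0, -1, 0] := by
    simp [hp1, tg, Ne.symm had, Ne.symm hbd, Ne.symm hcd]
  have pe : p1 e = ![0, 0, 1] := by
    simp [hp1, tg, Ne.symm hae, Ne.symm hbe, Ne.symm hce, Ne.symm hde]
  have hαk0 : ∀ τ, α τ k0 = -1 := by
    intro τ
    have h1 : β' k0 = -1 := by
      simp only [hβ']
      rw [div_self hk0']
    have h2 : α1 k0 = -1 := by
      simp only [hα1]
      linarith
    simp only [hα]
    rw [h1, h2]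
    ring
  have hαs : ∀ τ, ∑ k, α τ k = 0 := by
    intro τ
    have h1 : ∑ k, β' k = 0 := by
      simp only [hβ']
      rw [Finset.sum_neg_distrib, ← Finset.sum_div, hβs]
      simp
    have h2 : ∑ k, α1 k = 0 := by
      simp only [hα1, hw]
      rw [Fin.sum_univ_four]
      simp
    simp only [hα]
    rw [Finset.sum_add_distrib, ← Finset.mul_sum, ← Finset.mul_sum, h1, h2]
    ring
  have hqk : ∀ τ k r, k ≠ k0 → q τ (T k) r = base τ (T k) r := by
    intro τ k r hk
    simp only [hq]
    rw [if_neg fun h => hk (hTinj _ _ h)]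
  have hq0 : ∀ τ r, q τ (T k0) r = ∑ k ∈ univ.erase k0, α τ k * base τ (T k) r := by
    intro τ r
    simp only [hq]
    rw [if_true]
  have factA : ∀ τ, ∑ k, α τ k • q τ (T k) = 0 := by
    intro τ
    funext r
    rw [Finset.sum_apply]
    simp only [Pi.smul_apply, smul_eq_mul, Pi.zero_apply]
    rw [← Finset.add_sum_erase _ _ (Finset.mem_univ k0), hαk0, hq0]
    have : ∑ x ∈ univ.erase k0, α τ x * q τ (T x) r
        = ∑ k ∈ univ.erase k0, α τ k * base τ (T k) r := by
      refine Finset.sum_congr rfl fun k hk => ?_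
      rw [hqk τ k r (Finset.ne_of_mem_erase hk)]
    rw [this]
    ring
  have factB : q 0 = p0 := by
    funext j r
    by_cases hj : j = T k0
    · rw [hj, hq0]
      have h1 := congrFun hβp r
      rw [Finset.sum_apply] at h1
      simp only [Pi.smul_apply, smul_eq_mul, Pi.zero_apply] at h1
      rw [← Finset.add_sum_erase _ _ (Finset.mem_univ k0)] at h1
      have h2 : ∑ k ∈ univ.erase k0, α 0 k * base 0 (T k) r
          = -(1 / β k0) * ∑ k ∈ univ.erase k0, β k * p0 (T k) r := by
        rw [Finset.mul_sum]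
        refine Finset.sum_congr rfl fun k _ => ?_
        simp only [hα, hbase, hβ']
        ring
      rw [h2]
      field_simp
      linarith
    · simp only [hq]
      rw [if_neg hj]
      simp only [hbase]
      ring
  have factC : q 1 = p1 := by
    funext j r
    by_cases hj : j = T k0
    · rw [hj, hq0]
      have h1 : ∑ k, w k * p1 (T k) r = 0 := by
        rw [Fin.sum_univ_four]
        have e0 : T 0 = a := rfl
        have e1 : T 1 = b := rfl
        have e2 : T 2 = c := rfl
        have e3 : T 3 = d := rfl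
        rw [e0, e1, e2, e3, pa, pb, pc, pd]
        fin_cases r <;> simp [hw]
      rw [← Finset.add_sum_erase _ _ (Finset.mem_univ k0)] at h1
      have h2 : ∑ k ∈ univ.erase k0, α 1 k * base 1 (T k) r
          = -(w k0) * ∑ k ∈ univ.erase k0, w k * p1 (T k) r := by
        rw [Finset.mul_sum]
        refine Finset.sum_congr rfl fun k _ => ?_
        simp only [hα, hbase, hα1]
        ring
      rw [h2]
      have h3 : ∑ k ∈ univ.erase k0, w k * p1 (T k) r = -(w k0 * p1 (T k0) r) := by linarith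
      rw [h3]
      linear_combination (p1 (T k0) r) * hwk
    · simp only [hq]
      rw [if_neg hj]
      simp only [hbase]
      ring
  have hαPF : ∀ k, PF (fun τ => α τ k) := by
    intro k
    simp only [hα]
    exact (((PF.const 1).sub PF.id).mul (PF.const _)).add (PF.id.mul (PF.const _))
  have hbPF : ∀ j r, PF (fun τ => base τ j r) := by
    intro j r
    simp only [hbase]
    exact (((PF.const 1).sub PF.id).mul (PF.const _)).add (PF.id.mul (PF.const _))
  have hPP : PP q := by
    intro j r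
    by_cases hj : j = T k0
    · have h1 : (fun τ => q τ j r) = fun τ => ∑ k ∈ univ.erase k0, α τ k * base τ (T k) r := by
        funext τ
        rw [hj, hq0]
      rw [h1]
      exact PF.sum _ fun k _ => (hαPF k).mul (hbPF _ _)
    · have h1 : (fun τ => q τ j r) = fun τ => base τ j r := by
        funext τ
        simp only [hq]
        rw [if_neg hj]
      rw [h1]
      exact hbPF _ _
  have hα1ne : ∀ k, α 1 k ≠ 0 := by
    intro k
    have hwne : ∀ k, w k ≠ 0 := by
      intro k
      fin_cases k <;> simp [hw]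
    have : α 1 k = -(w k0) * w k := by
      simp only [hα, hα1]
      ring
    rw [this]
    exact mul_ne_zero (neg_ne_zero.2 (hwne k0)) (hwne k)
  obtain ⟨τ, hτ⟩ := PF.common (univ : Finset (Fin 7))
    (f := ![fun τ => rr G (q τ), fun τ => D4 (q τ) ![a, b, c, e], fun τ => α τ 0,
      fun τ => α τ 1, fun τ => α τ 2, fun τ => α τ 3, fun τ => α τ 0 + α τ 1]) (by
      intro i _
      fin_cases i
      · exact rr_lpf G q hPP
      · exact D4_lpf _ q hPP
      · exact hαPF 0
      · exact hαPF 1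
      · exact hαPF 2
      · exact hαPF 3
      · exact (hαPF 0).add (hαPF 1)) (by
      intro i _
      fin_cases i
      · refine ⟨0, ?_⟩
        show rr G (q 0) ≠ 0
        rw [factB, rr_ne]
        exact hRI
      · refine ⟨1, ?_⟩
        show D4 (q 1) ![a, b, c, e] ≠ 0
        rw [factC, Pool.Agent.Helper65.XR.GEN.D4_eq, Pool.Agent.Helper65.XR.GEN.D_expand]
        simp only [Matrix.cons_val_zero, Matrix.cons_val_one, Matrix.cons_val_two,
          Matrix.head_cons, Matrix.tail_cons, Matrix.cons_val]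
        rw [pa, pb, pc, pe]
        simp
        norm_num
      · exact ⟨1, hα1ne 0⟩
      · exact ⟨1, hα1ne 1⟩
      · exact ⟨1, hα1ne 2⟩
      · exact ⟨1, hα1ne 3⟩
      · refine ⟨1, ?_⟩
        show α 1 0 + α 1 1 ≠ 0
        have h1 : α 1 0 + α 1 1 = -(w k0) * 2 := by
          simp only [hα, hα1]
          have e0 : w 0 = 1 := rfl
          have e1 : w 1 = 1 := rfl
          rw [e0, e1]
          ring
        rw [h1]
        have : w k0 ≠ 0 := by
          intro h
          rw [h] at hwk
          norm_num at hwk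
        exact mul_ne_zero (neg_ne_zero.2 this) two_ne_zero)
  have t0 : rr G (q τ) ≠ 0 := hτ 0 (mem_univ _)
  have t1 : D4 (q τ) ![a, b, c, e] ≠ 0 := hτ 1 (mem_univ _)
  have t2 : α τ 0 ≠ 0 := hτ 2 (mem_univ _)
  have t3 : α τ 1 ≠ 0 := hτ 3 (mem_univ _)
  have t4 : α τ 2 ≠ 0 := hτ 4 (mem_univ _)
  have t5 : α τ 3 ≠ 0 := hτ 5 (mem_univ _)
  have t6 : α τ 0 + α τ 1 ≠ 0 := hτ 6 (mem_univ _)
  refine ⟨q τ, α τ, (rr_ne G _).1 t0, ?_, hαs τ, factA τ, t6, t1⟩
  intro k
  fin_cases k
  · exact t2
  · exact t3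
  · exact t4
  · exact t5

end Pool.Agent.Helper40.XA
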