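import Pool.Agent.Helper40.XA.Cop
import Pool.Agent.Helper40.XA.Pert
import Pool.Agent.Helper40.XA.Clq
import Pool.Agent.Helper40.XA.Cnt2
import Pool.Agent.Helper40.XA.Max

set_option autoImplicit false

/-! Almost all pairs of edges are safe. -/

namespace Pool.Agent.Helper40.XA

open Finset
open Pool.Agent.Helper65.XR (Pt RI Row D4 ee Mot XI e5 Qf Lf GPos Good Indep3 XIndep t_inj XI_to)
open Pool.Agent.Helper65.XR.GEN (Ix)

/-- some X-replacement on two disjoint edges which cover `T` is dependent -/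
def Uns {n : ℕ} (G : SimpleGraph (Fin n)) (T : Finset (Fin n)) : Prop :=
  ∃ a b c d e : Fin n, [a, b, c, d, e].Nodup ∧ T = {a, b, c, d} ∧ G.Adj a b ∧ G.Adj c d ∧
    ¬ XIndep G a b c d e

theorem uns_bad {n : ℕ} (G : SimpleGraph (Fin n)) (hG : ∃ p, RI G p) (T : Finset (Fin n))
    (h : Uns G T) : Bad4 G T ∧ ¬ G.IsClique T := by
  classical
  obtain ⟨a, b, c, d, e, hnd, hT, hab, hcd, hX⟩ := h
  set H : SimpleGraph (Fin n) := G.deleteEdges {s(a, b), s(c, d)} with hHdef
  have hHadj : ∀ u v, H.Adj u v ↔ G.Adj u v ∧ s(u, v) ≠ s(a, b) ∧ s(u, v) ≠ s(c, d) := by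
    intro u v
    rw [hHdef, SimpleGraph.deleteEdges_adj]
    simp only [Set.mem_insert_iff, Set.mem_singleton_iff, not_or, ne_eq]
  have hHG : H ≤ G := fun u v huv => ((hHadj u v).1 huv).1
  have hti := t_inj a b c d e hnd
  have n01 : ¬ H.Adj a b := fun hc => ((hHadj _ _).1 hc).2.1 rfl
  have n23 : ¬ H.Adj c d := fun hc => ((hHadj _ _).1 hc).2.2 rfl
  have hXI : ¬ XI H ![a, b, c, d, e] := fun hh => hX (XI_to G a b c d e hh)
  constructor
  · refine ⟨![a, b, c, d], ?_, ?_, ?_⟩
    · intro i j hij
      have h1 : (![a, b, c, d, e] : Fin 5 → Fin n) i.castSucc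
          = (![a, b, c, d, e] : Fin 5 → Fin n) j.castSucc := by
        have h2 : ∀ k : Fin 4, (![a, b, c, d, e] : Fin 5 → Fin n) k.castSucc
            = (![a, b, c, d] : Fin 4 → Fin n) k := by
          intro k
          fin_cases k <;> rfl
        rw [h2, h2]
        exact hij
      exact Fin.castSucc_injective _ (hti h1)
    · rw [hT]
      ext x
      simp only [mem_image, mem_univ, true_and, mem_insert, mem_singleton]
      constructor
      · rintro ⟨k, rfl⟩
        fin_cases k
        · exact Or.inl rfl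
        · exact Or.inr (Or.inl rfl)
        · exact Or.inr (Or.inr (Or.inl rfl))
        · exact Or.inr (Or.inr (Or.inr rfl))
      · rintro (h | h | h | h)
        · exact ⟨0, h.symm⟩
        · exact ⟨1, h.symm⟩
        · exact ⟨2, h.symm⟩
        · exact ⟨3, h.symm⟩
    · intro p hp hRI
      obtain ⟨q, α, hq, hα, hαs, hαq, hα01, hD⟩ := cop_pert G a b c d e hnd p hRI hp
      apply hXI
      refine cop_XI G H hHG _ hti hab hcd n01 n23 q hq α hα hαs ?_ hα01 hD
      rw [← hαq]
      refine Finset.sum_congr rfl fun k _ => ?_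
      fin_cases k <;> rfl
  · intro hcl
    apply hXI
    refine clq_XI G H hHG _ hti ?_ n01 n23 hG
    have hmem : ∀ i : Fin 5, i ≠ 4 → (![a, b, c, d, e] : Fin 5 → Fin n) i ∈ (T : Set (Fin n)) := by
      intro i hi
      rw [hT]
      fin_cases i
      · simp
      · simp
      · simp
      · simp
      · exact absurd rfl hi
    intro i j hi hj hij
    exact hcl (hmem i hi) (hmem j hj) (fun h => hij (hti h))

theorem k4_bad {n : ℕ} (G : SimpleGraph (Fin n)) (T : Finset (Fin n)) (hc : T.card = 4)
    (hcl : G.IsClique T) : Bad4 G T := by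
  classical
  let E := T.equivFinOfCardEq hc
  have hi : Function.Injective (fun k : Fin 4 => ((E.symm k : T) : Fin n)) := fun i j h =>
    E.symm.injective (Subtype.ext h)
  refine ⟨fun k => ((E.symm k : T) : Fin n), hi, ?_, ?_⟩
  · apply Finset.eq_of_subset_of_card_le
    · intro x hx
      obtain ⟨k, _, rfl⟩ := mem_image.1 hx
      exact (E.symm k).2
    · rw [hc, card_image_of_injective _ hi]
      simp
  · intro p hp
    exact clq_bad G _ hi (fun i j hij => hcl (by exact (E.symm i).2) (by exact (E.symm j).2)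
      (fun h => hij (hi h))) p hp

/-- the bound at a vertex -/
theorem vertex_bound {n : ℕ} (G : SimpleGraph (Fin n)) (hG : ∃ p, RI G p) (v : Fin n) :
    Nat.card {T : Finset (Fin n) // v ∈ T ∧ Uns G T}
      + Nat.card {T : Finset (Fin n) // v ∈ T ∧ T.card = 4 ∧ G.IsClique T}
      ≤ Nat.card (G.neighborSet v) - 2 := by
  classical
  have h1 : ∀ (P : Finset (Fin n) → Prop) [DecidablePred P],
      Nat.card {T : Finset (Fin n) // P T}
      = ((univ : Finset (Finset (Fin n))).filter P).card := by
    intro P _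
    rw [Nat.card_eq_fintype_card, Fintype.card_subtype]
  rw [h1 (fun T => v ∈ T ∧ Uns G T), h1 (fun T => v ∈ T ∧ T.card = 4 ∧ G.IsClique T),
    ← Finset.card_union_of_disjoint]
  · refine count_bad G hG v _ fun T hT => ?_
    rcases mem_union.1 hT with h | h
    · obtain ⟨_, h2, h3⟩ := mem_filter.1 h
      exact ⟨h2, (uns_bad G hG T h3).1⟩
    · obtain ⟨_, h2, h3, h4⟩ := mem_filter.1 h
      exact ⟨h2, k4_bad G T h3 h4⟩
  · rw [Finset.disjoint_left]
    intro T hT hT'
    exact (uns_bad G hG T (mem_filter.1 hT).2.2).2 (mem_filter.1 hT').2.2.2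

theorem bad_card {n : ℕ} (G : SimpleGraph (Fin n)) (T : Finset (Fin n)) (h : Bad4 G T) :
    T.card = 4 := by
  classical
  obtain ⟨i, hi, hT, _⟩ := h
  rw [← hT, card_image_of_injective _ hi]
  simp

/-- the total number of bad sets -/
theorem total_bad {n : ℕ} (G : SimpleGraph (Fin n)) (hG : ∃ p, RI G p)
    (B : Finset (Finset (Fin n))) (hB : ∀ T ∈ B, Bad4 G T) : B.card ≤ n - 3 := by
  classical
  rcases B.eq_empty_or_nonempty with rfl | ⟨T0, hT0⟩
  · simp
  let D : Fin n → Finset (Fin n) := fun v => univ.filter (fun w => G.Adj v w)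
  have hD : ∀ v, Nat.card (G.neighborSet v) = (D v).card := by
    intro v
    have : (G.neighborSet v) = {w | G.Adj v w} := rfl
    rw [Nat.card_eq_fintype_card]
    show Fintype.card {w // G.Adj v w} = _
    rw [Fintype.card_subtype]
  have hf : ∀ v, (B.filter (fun T => v ∈ T)).card ≤ (D v).card - 2 := by
    intro v
    rw [← hD]
    refine count_bad G hG v _ fun T hT => ?_
    obtain ⟨h1, h2⟩ := mem_filter.1 hT
    exact ⟨h2, hB T h1⟩
  have hsum : ∑ v, (B.filter (fun T => v ∈ T)).card = 4 * B.card := by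
    have h1 : ∀ v : Fin n, (B.filter (fun T => v ∈ T)).card
        = ∑ T ∈ B, if v ∈ T then 1 else 0 := by
      intro v
      rw [Finset.card_filter]
    rw [Finset.sum_congr rfl fun v _ => h1 v, Finset.sum_comm]
    have h2 : ∀ T ∈ B, (∑ v : Fin n, if v ∈ T then 1 else 0) = 4 := by
      intro T hT
      rw [← Finset.card_filter]
      have : (univ : Finset (Fin n)).filter (fun v => v ∈ T) = T := by
        ext x
        simp
      rw [this]
      exact bad_card G T (hB T hT)
    rw [Finset.sum_congr rfl h2]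
    simp [mul_comm]
  set W : Finset (Fin n) := univ.filter (fun v => 2 ≤ (D v).card) with hW
  -- three vertices of `W`
  have hTW : T0 ⊆ W := by
    intro v hv
    have h1 := hf v
    have h2 : 0 < (B.filter (fun T => v ∈ T)).card :=
      Finset.card_pos.2 ⟨T0, mem_filter.2 ⟨hT0, hv⟩⟩
    exact mem_filter.2 ⟨mem_univ _, by omega⟩
  have hT4 := bad_card G T0 (hB T0 hT0)
  obtain ⟨a, ha, b, hb, c, hc, hab, hac, hbc⟩ := Finset.two_lt_card.1
    (by omega : 2 < T0.card)
  -- a placement
  obtain ⟨p, hp⟩ := exists_common ({rr G, fun p => det2 p a b c} :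
      Finset ((Fin n → Pt) → ℝ)) id (by
    intro g hg
    rcases mem_insert.1 hg with rfl | hg
    · exact rr_lpf G
    · rw [mem_singleton.1 hg]
      exact det2_lpf _ _ _) (by
    intro g hg
    rcases mem_insert.1 hg with rfl | hg
    · obtain ⟨p, hp⟩ := hG
      exact ⟨p, (rr_ne G p).2 hp⟩
    · rw [mem_singleton.1 hg]
      exact ⟨mom a, det2_mom a _ _ _ hab hac hbc⟩)
  have hRI : RI G p := (rr_ne G p).1 (hp (rr G) (by simp))
  have hd : det2 p a b c ≠ 0 := hp (fun p => det2 p a b c) (by simp)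
  have hmax := maxwell G p hRI W a b c (hTW ha) (hTW hb) (hTW hc) hab hac hbc hd
  -- degrees
  have hdeg : ∑ v ∈ W, (D v).card
      ≤ 2 * Nat.card {x : Ix G // x.1.1 ∈ W ∧ x.1.2 ∈ W} + (n - W.card) := by
    have h1 : ∀ v, (D v).card = (W.filter (fun w => G.Adj v w)).card
        + (Wᶜ.filter (fun w => G.Adj v w)).card := by
      intro v
      rw [← Finset.card_union_of_disjoint, ← Finset.filter_union, Finset.union_compl]
      exact Finset.disjoint_filter_filter disjoint_compl_right
    rw [Finset.sum_congr rfl fun v _ => h1 v, Finset.sum_add_distrib]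
    refine add_le_add ?_ ?_
    · have h2 : ∑ v ∈ W, (W.filter (fun w => G.Adj v w)).card
          = ((W ×ˢ W).filter (fun y => G.Adj y.1 y.2)).card := by
        rw [Finset.card_filter, Finset.sum_product]
        refine Finset.sum_congr rfl fun v _ => ?_
        rw [Finset.card_filter]
      rw [h2]
      have h3 : (W ×ˢ W).filter (fun y => G.Adj y.1 y.2)
          = (W ×ˢ W).filter (fun y => y.1 < y.2 ∧ G.Adj y.1 y.2)
            ∪ (W ×ˢ W).filter (fun y => y.2 < y.1 ∧ G.Adj y.1 y.2) := by
        ext y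
        simp only [mem_filter, mem_union]
        constructor
        · rintro ⟨h4, h5⟩
          rcases lt_or_gt_of_ne h5.ne with h6 | h6
          · exact Or.inl ⟨h4, h6, h5⟩
          · exact Or.inr ⟨h4, h6, h5⟩
        · rintro (⟨h4, _, h5⟩ | ⟨h4, _, h5⟩)
          · exact ⟨h4, h5⟩
          · exact ⟨h4, h5⟩
      rw [h3]
      refine (Finset.card_union_le _ _).trans ?_
      have h4 : Nat.card {x : Ix G // x.1.1 ∈ W ∧ x.1.2 ∈ W}
          = ((W ×ˢ W).filter (fun y => y.1 < y.2 ∧ G.Adj y.1 y.2)).card := by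
        rw [← Nat.card_eq_finsetCard]
        refine Nat.card_congr
          { toFun := fun x => ⟨x.1.1, mem_filter.2 ⟨mem_product.2 x.2, x.1.2⟩⟩
            invFun := fun y => ⟨⟨y.1, (mem_filter.1 y.2).2⟩,
              mem_product.1 (mem_filter.1 y.2).1⟩
            left_inv := fun x => rfl
            right_inv := fun y => rfl }
      have h5 : ((W ×ˢ W).filter (fun y => y.2 < y.1 ∧ G.Adj y.1 y.2)).card
          ≤ ((W ×ˢ W).filter (fun y => y.1 < y.2 ∧ G.Adj y.1 y.2)).card := by
        refine Finset.card_le_card_of_injOn Prod.swap ?_ Prod.swap_injective.injOn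
        intro y hy
        obtain ⟨h6, h7, h8⟩ := mem_filter.1 (Finset.mem_coe.1 hy)
        obtain ⟨h9, h10⟩ := mem_product.1 h6
        exact Finset.mem_coe.2 (mem_filter.2 ⟨mem_product.2 ⟨h10, h9⟩, h7, h8.symm⟩)
      omega
    · have h2 : ∑ v ∈ W, (Wᶜ.filter (fun w => G.Adj v w)).card
          = ∑ w ∈ Wᶜ, (W.filter (fun v => G.Adj v w)).card := by
        have e1 : ∀ v ∈ W, (Wᶜ.filter (fun w => G.Adj v w)).card
            = ∑ w ∈ Wᶜ, if G.Adj v w then 1 else 0 := fun v _ => Finset.card_filter _ _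
        have e2 : ∀ w ∈ Wᶜ, (W.filter (fun v => G.Adj v w)).card
            = ∑ v ∈ W, if G.Adj v w then 1 else 0 := fun w _ => Finset.card_filter _ _
        rw [Finset.sum_congr rfl e1, Finset.sum_congr rfl e2, Finset.sum_comm]
      rw [h2]
      have h3 : ∀ w ∈ Wᶜ, (W.filter (fun v => G.Adj v w)).card ≤ 1 := by
        intro w hw
        have h4 : ¬ 2 ≤ (D w).card := fun h => (mem_compl.1 hw) (mem_filter.2 ⟨mem_univ _, h⟩)
        have h5 : (W.filter (fun v => G.Adj v w)) ⊆ D w := by
          intro v hv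
          exact mem_filter.2 ⟨mem_univ _, (mem_filter.1 hv).2.symm⟩
        have h6 := Finset.card_le_card h5
        omega
      refine (Finset.sum_le_sum h3).trans ?_
      rw [Finset.sum_const, smul_eq_mul, mul_one, Finset.card_compl, Fintype.card_fin]
  have hW2 : ∑ v ∈ W, ((D v).card - 2) + 2 * W.card = ∑ v ∈ W, (D v).card := by
    have h1 : ∀ v ∈ W, (D v).card = ((D v).card - 2) + 2 := by
      intro v hv
      have := (mem_filter.1 hv).2
      omega
    rw [Finset.sum_congr rfl h1, Finset.sum_add_distrib, Finset.sum_const, smul_eq_mul]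
    ring
  have hall : ∑ v, ((D v).card - 2) = ∑ v ∈ W, ((D v).card - 2) := by
    symm
    refine Finset.sum_subset (Finset.subset_univ _) fun v _ hv => ?_
    have h4 : ¬ 2 ≤ (D v).card := fun h => hv (mem_filter.2 ⟨mem_univ _, h⟩)
    omega
  have hle : 4 * B.card ≤ ∑ v, ((D v).card - 2) := by
    rw [← hsum]
    exact Finset.sum_le_sum fun v _ => hf v
  have hWn : W.card ≤ n := by
    have := Finset.card_le_univ W
    rwa [Fintype.card_fin] at this
  omega

/-- the total bound -/
theorem total_bound {n : ℕ} (G : SimpleGraph (Fin n)) (hG : ∃ p, RI G p) :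
    Nat.card {T : Finset (Fin n) // Uns G T}
      + Nat.card {T : Finset (Fin n) // T.card = 4 ∧ G.IsClique T} ≤ n - 3 := by
  classical
  have h1 : ∀ (P : Finset (Fin n) → Prop) [DecidablePred P],
      Nat.card {T : Finset (Fin n) // P T}
      = ((univ : Finset (Finset (Fin n))).filter P).card := by
    intro P _
    rw [Nat.card_eq_fintype_card, Fintype.card_subtype]
  rw [h1 (fun T => Uns G T), h1 (fun T => T.card = 4 ∧ G.IsClique T),
    ← Finset.card_union_of_disjoint]
  · refine total_bad G hG _ fun T hT => ?_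
    rcases mem_union.1 hT with h | h
    · exact (uns_bad G hG T (mem_filter.1 h).2).1
    · obtain ⟨_, h3, h4⟩ := mem_filter.1 h
      exact k4_bad G T h3 h4
  · rw [Finset.disjoint_left]
    intro T hT hT'
    exact (uns_bad G hG T (mem_filter.1 hT).2).2 (mem_filter.1 hT').2.2

end Pool.Agent.Helper40.XA
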