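import Pool.Agent.Helper40.XA.Main

set_option autoImplicit false

/-! Counting unsafe pairs of edges. -/

namespace Pool.Agent.Helper40.XA

open Finset
open Pool.Agent.Helper65.XR (Pt RI Row D4 ee Mot XI e5 Qf Lf GPos Good Indep3 XIndep t_inj XI_to)
open Pool.Agent.Helper65.XR.GEN (Ix)

/-- the edges `ab`, `cd` are an unsafe pair -/
def UP {n : ℕ} (G : SimpleGraph (Fin n)) (a b c d : Fin n) : Prop :=
  G.Adj a b ∧ G.Adj c d ∧ ∃ e, [a, b, c, d, e].Nodup ∧ ¬ XIndep G a b c d e

theorem UP.uns {n : ℕ} {G : SimpleGraph (Fin n)} {a b c d : Fin n} (h : UP G a b c d) :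
    Uns G {a, b, c, d} := by
  obtain ⟨h1, h2, e, h3, h4⟩ := h
  exact ⟨a, b, c, d, e, h3, rfl, h1, h2, h4⟩

theorem UP.ne {n : ℕ} {G : SimpleGraph (Fin n)} {a b c d : Fin n} (h : UP G a b c d) :
    a ≠ b ∧ a ≠ c ∧ a ≠ d ∧ b ≠ c ∧ b ≠ d ∧ c ≠ d := by
  obtain ⟨_, _, e, hnd, _⟩ := h
  simp only [List.nodup_cons, List.mem_cons, List.not_mem_nil, or_false, not_or,
    List.nodup_nil, and_true] at hnd
  obtain ⟨⟨hab, hac, had, hae⟩, ⟨hbc, hbd, hbe⟩, ⟨hcd, hce⟩, hde, -⟩ := hnd
  exact ⟨hab, hac, had, hbc, hbd, hcd⟩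

/-- partners of a given edge -/
theorem edge_bound {n : ℕ} (G : SimpleGraph (Fin n)) (hG : ∃ p, RI G p) (a b : Fin n) :
    Nat.card {f : Sym2 (Fin n) // ∃ c d, f = s(c, d) ∧ UP G a b c d}
      ≤ min (Nat.card (G.neighborSet a)) (Nat.card (G.neighborSet b)) - 2 := by
  classical
  have key : ∀ v : Fin n, (v = a ∨ v = b) →
      Nat.card {f : Sym2 (Fin n) // ∃ c d, f = s(c, d) ∧ UP G a b c d}
        ≤ Nat.card (G.neighborSet v) - 2 := by
    intro v hv
    refine le_trans ?_ ((Nat.le_add_right _ _).trans (vertex_bound G hG v))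
    refine Nat.card_le_card_of_injective
      (fun f => ⟨insert a (insert b f.1.toFinset), ?_, ?_⟩) ?_
    · rcases hv with rfl | rfl <;> simp
    · obtain ⟨f, c, d, hf, h⟩ := f
      have h1 := h.uns
      have h2 : insert a (insert b f.toFinset) = ({a, b, c, d} : Finset (Fin n)) := by
        rw [hf]
        ext x
        simp
      simp only
      rw [h2]
      exact h1
    · rintro ⟨f, c, d, hf, h⟩ ⟨f', c', d', hf', h'⟩ heq
      have h1 : insert a (insert b f.toFinset) = insert a (insert b f'.toFinset) :=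
        congrArg Subtype.val heq
      obtain ⟨_, hac, had, hbc, hbd, hcd⟩ := h.ne
      obtain ⟨_, hac', had', hbc', hbd', hcd'⟩ := h'.ne
      apply Subtype.ext
      simp only
      have hm : ∀ x, x ≠ a → x ≠ b → (x ∈ f ↔ x ∈ f') := by
        intro x hxa hxb
        have h2 := Finset.ext_iff.1 h1 x
        simpa [hxa, hxb] using h2
      have hmc := (hm c hac.symm hbc.symm).1 (by rw [hf]; exact Sym2.mem_mk_left c d)
      have hmd := (hm d had.symm hbd.symm).1 (by rw [hf]; exact Sym2.mem_mk_right c d)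
      rw [hf]
      exact ((Sym2.mem_and_mem_iff hcd).1 ⟨hmc, hmd⟩).symm
  have h1 := key a (Or.inl rfl)
  have h2 := key b (Or.inr rfl)
  omega

/-- the set of end points -/
def ends {n : ℕ} (P : Sym2 (Sym2 (Fin n))) : Finset (Fin n) :=
  (univ : Finset (Fin n)).filter (fun x => ∃ f ∈ P, x ∈ f)

theorem ends_mk {n : ℕ} (a b c d : Fin n) :
    ends s(s(a, b), s(c, d)) = ({a, b, c, d} : Finset (Fin n)) := by
  ext x
  simp only [ends, mem_filter, mem_univ, true_and, mem_insert, mem_singleton]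
  constructor
  · rintro ⟨f, hf, hx⟩
    rcases Sym2.mem_iff.1 hf with rfl | rfl
    · rcases Sym2.mem_iff.1 hx with rfl | rfl
      · exact Or.inl rfl
      · exact Or.inr (Or.inl rfl)
    · rcases Sym2.mem_iff.1 hx with rfl | rfl
      · exact Or.inr (Or.inr (Or.inl rfl))
      · exact Or.inr (Or.inr (Or.inr rfl))
  · rintro (rfl | rfl | rfl | rfl)
    · exact ⟨s(x, b), Sym2.mem_mk_left _ _, Sym2.mem_mk_left _ _⟩
    · exact ⟨s(a, x), Sym2.mem_mk_left _ _, Sym2.mem_mk_right _ _⟩
    · exact ⟨s(x, d), Sym2.mem_mk_right _ _, Sym2.mem_mk_left _ _⟩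
    · exact ⟨s(c, x), Sym2.mem_mk_right _ _, Sym2.mem_mk_right _ _⟩

/-- pairs of disjoint edges -/
def DE {n : ℕ} (G : SimpleGraph (Fin n)) (a b c d : Fin n) : Prop :=
  G.Adj a b ∧ G.Adj c d ∧ a ≠ b ∧ a ≠ c ∧ a ≠ d ∧ b ≠ c ∧ b ≠ d ∧ c ≠ d

theorem fiber_two {n : ℕ} (G : SimpleGraph (Fin n)) (x y z w : Fin n) (hxy : x ≠ y)
    (hna : ¬ G.Adj x y)
    (P : Sym2 (Sym2 (Fin n))) (hP : ∃ a b c d, P = s(s(a, b), s(c, d)) ∧ DE G a b c d)
    (hT : ends P = ({x, y, z, w} : Finset (Fin n))) :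
    P = s(s(x, z), s(y, w)) ∨ P = s(s(x, w), s(y, z)) := by
  classical
  -- normalise
  obtain ⟨b, c, d, rfl, h1, h2, hxb, hxc, hxd, hbc, hbd, hcd⟩ :
      ∃ b c d, P = s(s(x, b), s(c, d)) ∧ DE G x b c d := by
    obtain ⟨a, b, c, d, rfl, h1, h2, h3, h4, h5, h6, h7, h8⟩ := hP
    have hx : x ∈ ends s(s(a, b), s(c, d)) := by
      rw [hT]
      simp
    rw [ends_mk] at hx
    simp only [mem_insert, mem_singleton] at hx
    rcases hx with rfl | rfl | rfl | rfl
    · exact ⟨b, c, d, rfl, h1, h2, h3, h4, h5, h6, h7, h8⟩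
    · exact ⟨a, c, d, by rw [Sym2.eq_swap (a := a) (b := x)], h1.symm, h2, h3.symm, h6, h7, h4,
        h5, h8⟩
    · exact ⟨d, a, b, Sym2.eq_swap, h2, h1, h8, h4.symm, h6.symm, h5.symm, h7.symm, h3⟩
    · exact ⟨c, a, b, by rw [Sym2.eq_swap (a := c) (b := x)]; exact Sym2.eq_swap, h2.symm, h1,
        h8.symm, h5.symm, h7.symm, h4.symm, h6.symm, h3⟩
  rw [ends_mk] at hT
  have hm : ∀ u, u ∈ ({x, b, c, d} : Finset (Fin n)) → u = x ∨ u = y ∨ u = z ∨ u = w := by
    intro u hu
    rw [hT] at hu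
    simpa only [mem_insert, mem_singleton] using hu
  have hm' : ∀ u, u ∈ ({x, y, z, w} : Finset (Fin n)) → u = x ∨ u = b ∨ u = c ∨ u = d := by
    intro u hu
    rw [← hT] at hu
    simpa only [mem_insert, mem_singleton] using hu
  have hby : b ≠ y := by
    rintro rfl
    exact hna h1
  have hb := (hm b (by simp)).resolve_left hxb.symm
  have hb' := hb.resolve_left hby
  have hc := (hm c (by simp)).resolve_left hxc.symm
  have hd := (hm d (by simp)).resolve_left hxd.symm
  have hy := ((hm' y (by simp)).resolve_left hxy.symm).resolve_left hby.symm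
  rcases hb' with rfl | rfl
  · left
    have hw : s(c, d) = s(y, w) := by
      rcases hy with rfl | rfl
      · rcases hd with h | h | h
        · exact absurd h.symm hcd
        · exact absurd h.symm hbd
        · rw [h]
      · rcases hc with h | h | h
        · exact absurd h hcd
        · exact absurd h.symm hbc
        · rw [h]
          exact Sym2.eq_swap
    rw [hw]
  · right
    have hw : s(c, d) = s(y, z) := by
      rcases hy with rfl | rfl
      · rcases hd with h | h | h
        · exact absurd h.symm hcd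
        · rw [h]
        · exact absurd h.symm hbd
      · rcases hc with h | h | h
        · exact absurd h hcd
        · rw [h]
          exact Sym2.eq_swap
        · exact absurd h.symm hbc
    rw [hw]

/-- the number of unsafe pairs -/
theorem pair_bound {n : ℕ} (G : SimpleGraph (Fin n)) (hG : ∃ p, RI G p) :
    Nat.card {P : Sym2 (Sym2 (Fin n)) // ∃ a b c d, P = s(s(a, b), s(c, d)) ∧ UP G a b c d}
      + 2 * Nat.card {T : Finset (Fin n) // T.card = 4 ∧ G.IsClique T} ≤ 2 * (n - 3) := by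
  classical
  have h0 := total_bound G hG
  have h1 : Nat.card {P : Sym2 (Sym2 (Fin n)) // ∃ a b c d, P = s(s(a, b), s(c, d)) ∧
      UP G a b c d} ≤ 2 * Nat.card {T : Finset (Fin n) // Uns G T} := by
    have e1 : Nat.card {P : Sym2 (Sym2 (Fin n)) // ∃ a b c d, P = s(s(a, b), s(c, d)) ∧
        UP G a b c d} = ((univ : Finset (Sym2 (Sym2 (Fin n)))).filter
          (fun P => ∃ a b c d, P = s(s(a, b), s(c, d)) ∧ UP G a b c d)).card := by
      rw [Nat.card_eq_fintype_card, Fintype.card_subtype]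
    have e2 : Nat.card {T : Finset (Fin n) // Uns G T}
        = ((univ : Finset (Finset (Fin n))).filter (fun T => Uns G T)).card := by
      rw [Nat.card_eq_fintype_card, Fintype.card_subtype]
    rw [e1, e2]
    refine Finset.card_le_mul_card_image_of_maps_to (f := ends) ?_ 2 ?_
    · intro P hP
      obtain ⟨_, a, b, c, d, rfl, h⟩ := mem_filter.1 hP
      rw [ends_mk]
      exact mem_filter.2 ⟨mem_univ _, h.uns⟩
    · intro T hT
      obtain ⟨hb, hcl⟩ := uns_bad G hG T (mem_filter.1 hT).2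
      have hc4 := bad_card G T hb
      -- two vertices which are not adjacent
      obtain ⟨x, hx, y, hy, hxy, hna⟩ : ∃ x ∈ T, ∃ y ∈ T, x ≠ y ∧ ¬ G.Adj x y := by
        by_contra hcon
        push Not at hcon
        exact hcl fun x hx y hy hxy => hcon x hx y hy hxy
      have hc2 : ((T.erase x).erase y).card = 2 := by
        rw [Finset.card_erase_of_mem (Finset.mem_erase.2 ⟨hxy.symm, hy⟩),
          Finset.card_erase_of_mem hx, hc4]
      obtain ⟨z, w, hzw, hTe⟩ := Finset.card_eq_two.1 hc2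
      have hTeq : T = {x, y, z, w} := by
        rw [← Finset.insert_erase hx, ← Finset.insert_erase
          (Finset.mem_erase.2 ⟨hxy.symm, hy⟩), hTe]
      have hsub : ((univ : Finset (Sym2 (Sym2 (Fin n)))).filter
          (fun P => ∃ a b c d, P = s(s(a, b), s(c, d)) ∧ UP G a b c d)).filter
          (fun P => ends P = T) ⊆ {s(s(x, z), s(y, w)), s(s(x, w), s(y, z))} := by
        intro P hP
        obtain ⟨hP1, hP2⟩ := mem_filter.1 hP
        obtain ⟨_, a, b, c, d, hP3, hU⟩ := mem_filter.1 hP1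
        rw [hTeq] at hP2
        have := fiber_two G x y z w hxy hna P ⟨a, b, c, d, hP3, hU.1, hU.2.1, hU.ne⟩ hP2
        simpa only [mem_insert, mem_singleton] using this
      exact (Finset.card_le_card hsub).trans Finset.card_le_two
  omega

end Pool.Agent.Helper40.XA
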