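import Pool.Agent.Helper65.XR.Gen
import Pool.Agent.Helper65.XR.BadM
import Pool.Agent.Helper65.XR.Row
import Pool.Agent.Helper65.XR.Ex
import Pool.Agent.Helper65.XR.Id
import Pool.Agent.Helper65.XR.Bar
import Pool.Agent.Helper65.XR.Fin

set_option autoImplicit false

/-! Polynomial functions along paths of placements. -/

namespace Pool.Agent.Helper40.XA

open Finset
open Pool.Agent.Helper65.XR (Pt RI Row D4 ee Mot XI e5 Qf Lf GPos Good)
open Pool.Agent.Helper65.XR.GEN (MM Ix)

/-- polynomial functions of one variable -/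
def PF (f : ℝ → ℝ) : Prop := ∃ P : Polynomial ℝ, ∀ x, f x = P.eval x

theorem PF.const (c : ℝ) : PF (fun _ => c) := ⟨Polynomial.C c, fun x => by simp⟩

theorem PF.id : PF (fun x => x) := ⟨Polynomial.X, fun x => by simp⟩

theorem PF.add {f g : ℝ → ℝ} (hf : PF f) (hg : PF g) : PF (fun x => f x + g x) := by
  obtain ⟨P, hP⟩ := hf
  obtain ⟨Q, hQ⟩ := hg
  exact ⟨P + Q, fun x => by simp [hP, hQ]⟩

theorem PF.sub {f g : ℝ → ℝ} (hf : PF f) (hg : PF g) : PF (fun x => f x - g x) := by
  obtain ⟨P, hP⟩ := hf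
  obtain ⟨Q, hQ⟩ := hg
  exact ⟨P - Q, fun x => by simp [hP, hQ]⟩

theorem PF.mul {f g : ℝ → ℝ} (hf : PF f) (hg : PF g) : PF (fun x => f x * g x) := by
  obtain ⟨P, hP⟩ := hf
  obtain ⟨Q, hQ⟩ := hg
  exact ⟨P * Q, fun x => by simp [hP, hQ]⟩

theorem PF.sum {ι : Type} (s : Finset ι) {f : ι → ℝ → ℝ} (hf : ∀ i ∈ s, PF (f i)) :
    PF (fun x => ∑ i ∈ s, f i x) := by
  classical
  induction s using Finset.induction_on with
  | empty => simpa using PF.const 0
  | insert a s ha ih =>
    have h1 : (fun x => ∑ i ∈ insert a s, f i x) = fun x => f a x + ∑ i ∈ s, f i x := by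
      funext x
      rw [sum_insert ha]
    rw [h1]
    exact (hf a (mem_insert_self _ _)).add (ih fun i hi => hf i (mem_insert_of_mem hi))

theorem PF.prod {ι : Type} (s : Finset ι) {f : ι → ℝ → ℝ} (hf : ∀ i ∈ s, PF (f i)) :
    PF (fun x => ∏ i ∈ s, f i x) := by
  classical
  induction s using Finset.induction_on with
  | empty => simpa using PF.const 1
  | insert a s ha ih =>
    have h1 : (fun x => ∏ i ∈ insert a s, f i x) = fun x => f a x * ∏ i ∈ s, f i x := by
      funext x
      rw [prod_insert ha]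
    rw [h1]
    exact (hf a (mem_insert_self _ _)).mul (ih fun i hi => hf i (mem_insert_of_mem hi))

theorem PF.det {ι : Type} [Fintype ι] [DecidableEq ι] {M : ℝ → Matrix ι ι ℝ}
    (hM : ∀ i j, PF (fun x => M x i j)) : PF (fun x => (M x).det) := by
  have h1 : (fun x => (M x).det) = fun x => ∑ σ : Equiv.Perm ι,
      ((Equiv.Perm.sign σ : ℤ) : ℝ) * ∏ i, M x (σ i) i := by
    funext x
    rw [Matrix.det_apply']
  rw [h1]
  exact PF.sum _ fun σ _ => (PF.const _).mul (PF.prod _ fun i _ => hM _ _)

theorem PF.finite {f : ℝ → ℝ} (hf : PF f) {x0 : ℝ} (h : f x0 ≠ 0) : {x | f x = 0}.Finite := by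
  obtain ⟨P, hP⟩ := hf
  have hP0 : P ≠ 0 := by
    rintro rfl
    apply h
    rw [hP]
    simp
  refine (P.roots.toFinset.finite_toSet).subset fun x hx => ?_
  simp only [Finset.mem_coe, Multiset.mem_toFinset]
  rw [Polynomial.mem_roots hP0]
  have : f x = 0 := hx
  rw [hP] at this
  exact this

/-- finitely many polynomial functions, none identically zero, have a common nonzero -/
theorem PF.common {ι : Type} (s : Finset ι) {f : ι → ℝ → ℝ} (hf : ∀ i ∈ s, PF (f i))
    (h : ∀ i ∈ s, ∃ x, f i x ≠ 0) : ∃ x, ∀ i ∈ s, f i x ≠ 0 := by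
  classical
  have h1 : (⋃ i ∈ s, {x | f i x = 0}).Finite := by
    refine s.finite_toSet.biUnion fun i hi => ?_
    obtain ⟨x, hx⟩ := h i hi
    exact (hf i hi).finite hx
  obtain ⟨x, hx⟩ := h1.infinite_compl.nonempty
  refine ⟨x, fun i hi h0 => hx ?_⟩
  exact Set.mem_biUnion hi h0

/-- a polynomial path of placements -/
def PP {n : ℕ} (q : ℝ → Fin n → Pt) : Prop := ∀ k c, PF (fun τ => q τ k c)

/-- functions which are polynomial along polynomial paths -/
def LPF {n : ℕ} (F : (Fin n → Pt) → ℝ) : Prop := ∀ q, PP q → PF (fun τ => F (q τ))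

theorem exists_common {n : ℕ} {ι : Type} (s : Finset ι) (F : ι → (Fin n → Pt) → ℝ)
    (hF : ∀ i ∈ s, LPF (F i)) (h : ∀ i ∈ s, ∃ p, F i p ≠ 0) : ∃ p, ∀ i ∈ s, F i p ≠ 0 := by
  classical
  induction s using Finset.induction_on with
  | empty => exact ⟨0, by simp⟩
  | insert a s ha ih =>
    obtain ⟨p, hp⟩ := ih (fun i hi => hF i (mem_insert_of_mem hi))
      (fun i hi => h i (mem_insert_of_mem hi))
    obtain ⟨p', hp'⟩ := h a (mem_insert_self _ _)
    have hq : PP (fun τ => fun k c => p k c + τ * (p' k c - p k c)) := fun k c =>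
      (PF.const _).add (PF.id.mul (PF.const _))
    obtain ⟨x, hx⟩ := PF.common (insert a s) (f := fun i τ => F i
      (fun k c => p k c + τ * (p' k c - p k c))) (fun i hi => hF i hi _ hq) (by
      intro i hi
      rcases mem_insert.1 hi with rfl | hi
      · refine ⟨1, ?_⟩
        have : (fun k c => p k c + 1 * (p' k c - p k c)) = p' := by
          funext k c
          ring
        rw [this]
        exact hp'
      · refine ⟨0, ?_⟩
        have : (fun k c => p k c + 0 * (p' k c - p k c)) = p := by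
          funext k c
          ring
        rw [this]
        exact hp i hi)
    exact ⟨_, hx⟩

open Classical in
/-- the Gram determinant of the rigidity matrix -/
noncomputable def rr {n : ℕ} (G : SimpleGraph (Fin n)) (p : Fin n → Pt) : ℝ :=
  letI : Fintype (Ix G) := Fintype.ofFinite _
  ((MM G p) * (MM G p).transpose).det

theorem rr_ne {n : ℕ} (G : SimpleGraph (Fin n)) (p : Fin n → Pt) : rr G p ≠ 0 ↔ RI G p := by
  classical
  letI : Fintype (Ix G) := Fintype.ofFinite _
  constructor
  · intro h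
    refine Pool.Agent.Helper65.XR.GEN.ri_of_det G p ?_
    unfold rr at h
    convert h
  · intro h
    have h1 := Pool.Agent.Helper65.XR.GEN.det_of_ri G p h
    unfold rr
    convert h1

theorem rr_lpf {n : ℕ} (G : SimpleGraph (Fin n)) : LPF (rr G) := by
  classical
  intro q hq
  unfold rr
  letI : Fintype (Ix G) := Fintype.ofFinite _
  have hM : ∀ (x : Ix G) (a : Fin n × Fin 3), PF (fun τ => MM G (q τ) x a) := by
    intro x a
    unfold MM Row
    by_cases h1 : a.1 = x.1.1
    · have : (fun τ => (if a.1 = x.1.1 then q τ x.1.1 - q τ x.1.2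
          else if a.1 = x.1.2 then q τ x.1.2 - q τ x.1.1 else 0 : Pt) a.2)
          = fun τ => q τ x.1.1 a.2 - q τ x.1.2 a.2 := by
        funext τ
        rw [if_pos h1]
        rfl
      rw [this]
      exact (hq _ _).sub (hq _ _)
    · by_cases h2 : a.1 = x.1.2
      · have : (fun τ => (if a.1 = x.1.1 then q τ x.1.1 - q τ x.1.2
            else if a.1 = x.1.2 then q τ x.1.2 - q τ x.1.1 else 0 : Pt) a.2)
            = fun τ => q τ x.1.2 a.2 - q τ x.1.1 a.2 := by
          funext τ
          rw [if_neg h1, if_pos h2]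
          rfl
        rw [this]
        exact (hq _ _).sub (hq _ _)
      · have : (fun τ => (if a.1 = x.1.1 then q τ x.1.1 - q τ x.1.2
            else if a.1 = x.1.2 then q τ x.1.2 - q τ x.1.1 else 0 : Pt) a.2)
            = fun _ => 0 := by
          funext τ
          rw [if_neg h1, if_neg h2]
          rfl
        rw [this]
        exact PF.const 0
  refine PF.det fun x y => ?_
  have : (fun τ => ((MM G (q τ)) * (MM G (q τ)).transpose) x y)
      = fun τ => ∑ a, MM G (q τ) x a * MM G (q τ) y a := by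
    funext τ
    rw [Matrix.mul_apply]
    rfl
  rw [this]
  exact PF.sum _ fun a _ => (hM x a).mul (hM y a)

theorem D4_lpf {n : ℕ} (i : Fin 4 → Fin n) : LPF (fun p : Fin n → Pt => D4 p i) := by
  intro q hq
  unfold D4
  refine PF.det fun r s => ?_
  fin_cases s
  · simpa using PF.const 1
  · simpa using hq (i r) 0
  · simpa using hq (i r) 1
  · simpa using hq (i r) 2

/-- affine independence from the determinant -/
theorem aff_indep {n : ℕ} (p : Fin n → Pt) (i : Fin 4 → Fin n) (h : D4 p i ≠ 0)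
    (γ : Fin 4 → ℝ) (h0 : ∑ k, γ k = 0) (h1 : ∑ k, γ k • p (i k) = 0) : γ = 0 := by
  unfold D4 at h
  apply Matrix.eq_zero_of_vecMul_eq_zero h
  have hp : ∀ r : Fin 3, ∑ k, γ k * p (i k) r = 0 := by
    intro r
    have := congrFun h1 r
    simpa [Finset.sum_apply] using this
  funext c
  have hp0 := hp 0
  have hp1 := hp 1
  have hp2 := hp 2
  fin_cases c
  · simpa [Matrix.vecMul, dotProduct] using h0
  · simpa [Matrix.vecMul, dotProduct] using hp0
  · simpa [Matrix.vecMul, dotProduct] using hp1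
  · simpa [Matrix.vecMul, dotProduct] using hp2

/-- affine dependence from the determinant -/
theorem aff_dep {n : ℕ} (p : Fin n → Pt) (i : Fin 4 → Fin n) (h : D4 p i = 0) :
    ∃ γ : Fin 4 → ℝ, γ ≠ 0 ∧ ∑ k, γ k = 0 ∧ ∑ k, γ k • p (i k) = 0 := by
  unfold D4 at h
  obtain ⟨γ, hγ, hv⟩ := Matrix.exists_vecMul_eq_zero_iff.2 h
  refine ⟨γ, hγ, ?_, ?_⟩
  · have := congrFun hv 0
    simpa [Matrix.vecMul, dotProduct] using this
  · funext r
    rw [Finset.sum_apply]
    have h1 := congrFun hv 1
    have h2 := congrFun hv 2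
    have h3 := congrFun hv 3
    fin_cases r
    · simpa [Matrix.vecMul, dotProduct] using h1
    · simpa [Matrix.vecMul, dotProduct] using h2
    · simpa [Matrix.vecMul, dotProduct] using h3

end Pool.Agent.Helper40.XA
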